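import Pool.Agent.Lib.MP_a57f33_nt.CycDefs

/-!
The homogeneous parts of the generating series of a function on words, and the cube of the
commutator ideal of the free associative algebra on two letters.
-/

namespace Pool.Agent.MP_a57f33_nt.Tri

/-- The homogeneous part of degree `n` of the generating series `∑_w Z(w) w` of a function `Z`
on the words in `x₀, x₁`. -/
def part {k : Type} [CommRing k] (n : ℕ) (Z : List Bool → k) : FreeAlgebra k Bool :=
  ∑ w : Fin n → Bool, Z (List.ofFn w) • (List.ofFn fun i => FreeAlgebra.ι k (w i)).prod

/-- The commutator `[x₀, x₁]` in the free associative algebra `k⟨x₀, x₁⟩`. -/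
def com (k : Type) [CommRing k] : FreeAlgebra k Bool :=
  FreeAlgebra.ι k false * FreeAlgebra.ι k true - FreeAlgebra.ι k true * FreeAlgebra.ι k false

/-- The cube `I³` of the two-sided ideal `I` of `k⟨x₀, x₁⟩` generated by `[x₀, x₁]`: the span of
the products `a [x₀, x₁] b [x₀, x₁] d [x₀, x₁] e`. -/
def comCube (k : Type) [CommRing k] : Submodule k (FreeAlgebra k Bool) :=
  Submodule.span k {z | ∃ a b d e : FreeAlgebra k Bool,
    z = a * com k * b * com k * d * com k * e}

end Pool.Agent.MP_a57f33_nt.Tri
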