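import Pool.Agent.Lib.MP_a57f33_nt.Tri.Mat
import Pool.Agent.Lib.MP_a57f33_nt.Tri.TDefs

/-!
An element of the free algebra on two letters which vanishes at all pairs of upper triangular
matrices of size 3 lies in the cube of the commutator ideal.
-/

namespace Pool.Agent.MP_a57f33_nt.Tri

set_option linter.unusedSectionVars false

section span

variable {k : Type} [CommRing k]

/-- The monomial `x₀^i x₁^j`. -/
def mono (i j : ℕ) : FreeAlgebra k Bool := FreeAlgebra.ι k false ^ i * FreeAlgebra.ι k true ^ j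

noncomputable def E0 : MvPolynomial (Fin 2) k →ₗ[k] FreeAlgebra k Bool :=
  (MvPolynomial.basisMonomials (Fin 2) k).constr k (fun s => mono (s 0) (s 1))

noncomputable def E1 : MvPolynomial (Fin 4) k →ₗ[k] FreeAlgebra k Bool :=
  (MvPolynomial.basisMonomials (Fin 4) k).constr k
    (fun s => mono (s 0) (s 1) * com k * mono (s 2) (s 3))

noncomputable def E2 : MvPolynomial (Fin 6) k →ₗ[k] FreeAlgebra k Bool :=
  (MvPolynomial.basisMonomials (Fin 6) k).constr k
    (fun s => mono (s 0) (s 1) * com k * mono (s 2) (s 3) * com k * mono (s 4) (s 5))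

lemma basis_mono {n : ℕ} (s : Fin n →₀ ℕ) :
    MvPolynomial.monomial s (1 : k) = MvPolynomial.basisMonomials (Fin n) k s := by
  rw [MvPolynomial.coe_basisMonomials]

lemma E0_monomial (s : Fin 2 →₀ ℕ) :
    E0 (MvPolynomial.monomial s (1 : k)) = mono (s 0) (s 1) := by
  rw [E0, basis_mono, Module.Basis.constr_basis]

lemma E1_monomial (s : Fin 4 →₀ ℕ) :
    E1 (MvPolynomial.monomial s (1 : k)) = mono (s 0) (s 1) * com k * mono (s 2) (s 3) := by
  rw [E1, basis_mono, Module.Basis.constr_basis]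

lemma E2_monomial (s : Fin 6 →₀ ℕ) :
    E2 (MvPolynomial.monomial s (1 : k)) =
      mono (s 0) (s 1) * com k * mono (s 2) (s 3) * com k * mono (s 4) (s 5) := by
  rw [E2, basis_mono, Module.Basis.constr_basis]

lemma mem_E0 (i j : ℕ) : mono i j ∈ LinearMap.range (E0 (k := k)) := by
  refine ⟨MvPolynomial.monomial (Finsupp.equivFunOnFinite.symm ![i, j]) 1, ?_⟩
  rw [E0_monomial]; simp

lemma mem_E1 (i j i' j' : ℕ) :
    mono i j * com k * mono i' j' ∈ LinearMap.range (E1 (k := k)) := by
  refine ⟨MvPolynomial.monomial (Finsupp.equivFunOnFinite.symm ![i, j, i', j']) 1, ?_⟩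
  rw [E1_monomial]; simp

lemma mem_E2 (i j i' j' i'' j'' : ℕ) :
    mono i j * com k * mono i' j' * com k * mono i'' j'' ∈ LinearMap.range (E2 (k := k)) := by
  refine ⟨MvPolynomial.monomial
    (Finsupp.equivFunOnFinite.symm ![i, j, i', j', i'', j'']) 1, ?_⟩
  rw [E2_monomial]; simp

/-- The sum of the ranges and of the cube. -/
noncomputable def MMod (k : Type) [CommRing k] : Submodule k (FreeAlgebra k Bool) :=
  LinearMap.range (E0 (k := k)) ⊔ LinearMap.range (E1 (k := k)) ⊔
    LinearMap.range (E2 (k := k)) ⊔ comCube k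

lemma range_le_of_monomial {n : ℕ} (F : MvPolynomial (Fin n) k →ₗ[k] FreeAlgebra k Bool)
    (G : FreeAlgebra k Bool →ₗ[k] FreeAlgebra k Bool) (N : Submodule k (FreeAlgebra k Bool))
    (h : ∀ s, G (F (MvPolynomial.monomial s 1)) ∈ N) :
    ∀ x ∈ LinearMap.range F, G x ∈ N := by
  rintro _ ⟨P, rfl⟩
  induction P using MvPolynomial.induction_on' with
  | monomial s a =>
    have : MvPolynomial.monomial s a = a • MvPolynomial.monomial s (1 : k) := by
      rw [MvPolynomial.smul_monomial, smul_eq_mul, mul_one]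
    rw [this, map_smul, map_smul]
    exact N.smul_mem _ (h s)
  | add p q hp hq => rw [map_add, map_add]; exact N.add_mem hp hq

lemma x1_mono (i j : ℕ) : FreeAlgebra.ι k true * mono i j = mono i (j + 1) -
    ∑ s ∈ Finset.range i, mono s 0 * com k * mono (i - 1 - s) j := by
  induction i with
  | zero => simp [mono, pow_succ']
  | succ i ih =>
    have h1 : FreeAlgebra.ι k true * mono (i + 1) j =
        FreeAlgebra.ι k false * (FreeAlgebra.ι k true * mono i j) - com k * mono i j := by
      simp only [mono, com, pow_succ']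
      noncomm_ring
    rw [h1, ih, mul_sub, Finset.mul_sum, Finset.sum_range_succ']
    have h2 : ∀ s ∈ Finset.range i, FreeAlgebra.ι k false *
        (mono s 0 * com k * mono (i - 1 - s) j) =
        mono (s + 1) 0 * com k * mono (i + 1 - 1 - (s + 1)) j := by
      intro s _
      rw [show i + 1 - 1 - (s + 1) = i - 1 - s by omega]
      simp only [mono, pow_succ']
      noncomm_ring
    rw [Finset.sum_congr rfl h2]
    have h3 : FreeAlgebra.ι k false * mono i (j + 1) = mono (i + 1) (j + 1) := by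
      simp only [mono, pow_succ' (FreeAlgebra.ι k false)]
      noncomm_ring
    rw [h3]
    simp only [mono, pow_zero, one_mul, mul_one, Nat.sub_zero, Nat.add_sub_cancel]
    abel

lemma x0_mono (i j : ℕ) : FreeAlgebra.ι k false * mono i j = mono (i + 1) j := by
  simp only [mono, pow_succ' (FreeAlgebra.ι k false)]
  noncomm_ring

lemma le0 : LinearMap.range (E0 (k := k)) ≤ MMod k :=
  le_sup_left.trans (le_sup_left.trans le_sup_left)

lemma le1 : LinearMap.range (E1 (k := k)) ≤ MMod k :=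
  le_sup_right.trans (le_sup_left.trans le_sup_left)

lemma le2 : LinearMap.range (E2 (k := k)) ≤ MMod k :=
  le_sup_right.trans le_sup_left

lemma le3 : comCube k ≤ MMod k := le_sup_right

lemma cube_mul (a : FreeAlgebra k Bool) {x : FreeAlgebra k Bool} (hx : x ∈ comCube k) :
    a * x ∈ comCube k := by
  unfold comCube at hx ⊢
  induction hx using Submodule.span_induction with
  | mem x h =>
    obtain ⟨a', b, d, e, rfl⟩ := h
    exact Submodule.subset_span ⟨a * a', b, d, e, by noncomm_ring⟩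
  | zero => rw [mul_zero]; exact Submodule.zero_mem _
  | add x y _ _ hx hy => rw [mul_add]; exact Submodule.add_mem _ hx hy
  | smul r x _ hx => rw [mul_smul_comm]; exact Submodule.smul_mem _ _ hx

lemma mul_MMod (b : Bool) {x : FreeAlgebra k Bool} (hx : x ∈ MMod k) :
    FreeAlgebra.ι k b * x ∈ MMod k := by
  have h0 : ∀ x ∈ LinearMap.range (E0 (k := k)), FreeAlgebra.ι k b * x ∈ MMod k := by
    intro x hx
    refine range_le_of_monomial E0 (LinearMap.mulLeft k (FreeAlgebra.ι k b)) (MMod k) ?_ x hx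
    intro s
    rw [LinearMap.mulLeft_apply, E0_monomial]
    cases b with
    | false => rw [x0_mono]; exact le0 (mem_E0 _ _)
    | true =>
      rw [x1_mono]
      exact Submodule.sub_mem _ (le0 (mem_E0 _ _))
        (Submodule.sum_mem _ fun t _ => le1 (mem_E1 _ _ _ _))
  have h1 : ∀ x ∈ LinearMap.range (E1 (k := k)), FreeAlgebra.ι k b * x ∈ MMod k := by
    intro x hx
    refine range_le_of_monomial E1 (LinearMap.mulLeft k (FreeAlgebra.ι k b)) (MMod k) ?_ x hx
    intro s
    rw [LinearMap.mulLeft_apply, E1_monomial, ← mul_assoc, ← mul_assoc]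
    cases b with
    | false => rw [x0_mono]; exact le1 (mem_E1 _ _ _ _)
    | true =>
      rw [x1_mono, sub_mul, sub_mul, Finset.sum_mul, Finset.sum_mul]
      exact Submodule.sub_mem _ (le1 (mem_E1 _ _ _ _))
        (Submodule.sum_mem _ fun t _ => le2 (mem_E2 _ _ _ _ _ _))
  have h2 : ∀ x ∈ LinearMap.range (E2 (k := k)), FreeAlgebra.ι k b * x ∈ MMod k := by
    intro x hx
    refine range_le_of_monomial E2 (LinearMap.mulLeft k (FreeAlgebra.ι k b)) (MMod k) ?_ x hx
    intro s
    rw [LinearMap.mulLeft_apply, E2_monomial, ← mul_assoc, ← mul_assoc, ← mul_assoc, ← mul_assoc]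
    cases b with
    | false => rw [x0_mono]; exact le2 (mem_E2 _ _ _ _ _ _)
    | true =>
      rw [x1_mono, sub_mul, sub_mul, sub_mul, sub_mul, Finset.sum_mul, Finset.sum_mul,
        Finset.sum_mul, Finset.sum_mul]
      refine Submodule.sub_mem _ (le2 (mem_E2 _ _ _ _ _ _))
        (Submodule.sum_mem _ fun t _ => le3 ?_)
      exact Submodule.subset_span ⟨_, _, _, _, rfl⟩
  unfold MMod at hx
  obtain ⟨y1, hy1, z, hz, rfl⟩ := Submodule.mem_sup.mp hx
  obtain ⟨y2, hy2, w, hw, rfl⟩ := Submodule.mem_sup.mp hy1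
  obtain ⟨y, hy, v, hv, rfl⟩ := Submodule.mem_sup.mp hy2
  rw [mul_add, mul_add, mul_add]
  exact Submodule.add_mem _ (Submodule.add_mem _ (Submodule.add_mem _ (h0 y hy) (h1 v hv))
    (h2 w hw)) (le3 (cube_mul _ hz))

lemma MMod_top (f : FreeAlgebra k Bool) : f ∈ MMod k := by
  have key : ∀ x ∈ MMod k, f * x ∈ MMod k := by
    induction f using FreeAlgebra.induction with
    | grade0 r =>
      intro x hx
      rw [← Algebra.smul_def]
      exact Submodule.smul_mem _ _ hx
    | grade1 b => intro x hx; exact mul_MMod b hx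
    | mul f g hf hg => intro x hx; rw [mul_assoc]; exact hf _ (hg _ hx)
    | add f g hf hg => intro x hx; rw [add_mul]; exact Submodule.add_mem _ (hf _ hx) (hg _ hx)
  have h1 : (1 : FreeAlgebra k Bool) ∈ MMod k := by
    have := le0 (mem_E0 (k := k) 0 0)
    simpa [mono] using this
  have := key 1 h1
  rwa [mul_one] at this

end span

section eval

variable {k : Type} [CommRing k]

/-- The generic pair of matrices. -/
noncomputable def gen : FreeAlgebra k Bool →ₐ[k]
    Matrix (Fin 3) (Fin 3) (MvPolynomial (Fin 6) k) :=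
  FreeAlgebra.lift k (fun b => cond b
    (m3 (MvPolynomial.X 1) 1 0 (MvPolynomial.X 3) 1 (MvPolynomial.X 5))
    (m3 (MvPolynomial.X 0) 0 0 (MvPolynomial.X 2) 0 (MvPolynomial.X 4)))

lemma gen_false : gen (FreeAlgebra.ι k false) =
    m3 (MvPolynomial.X 0) 0 0 (MvPolynomial.X 2) 0 (MvPolynomial.X 4) := by
  simp [gen]

lemma gen_true : gen (FreeAlgebra.ι k true) =
    m3 (MvPolynomial.X 1) 1 0 (MvPolynomial.X 3) 1 (MvPolynomial.X 5) := by
  simp [gen]

lemma gen_com : gen (com k) = m3 0 (MvPolynomial.X 0 - MvPolynomial.X 2) 0 0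
    (MvPolynomial.X 2 - MvPolynomial.X 4) 0 := by
  rw [com, map_sub, map_mul, map_mul, gen_false, gen_true, m3_mul, m3_mul]
  ext1 i j
  fin_cases i <;> fin_cases j <;> simp [m3, Matrix.sub_apply] <;> ring

lemma m3_pow {K : Type*} [CommRing K] (a b c d e f : K) (n : ℕ) :
    ∃ t1 t2 t3, m3 a b c d e f ^ n = m3 (a ^ n) t1 t2 (d ^ n) t3 (f ^ n) := by
  induction n with
  | zero =>
    refine ⟨0, 0, 0, ?_⟩
    ext i j
    fin_cases i <;> fin_cases j <;> simp [m3]
  | succ n ih =>
    obtain ⟨t1, t2, t3, h⟩ := ih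
    rw [pow_succ, h, m3_mul, pow_succ, pow_succ, pow_succ]
    exact ⟨_, _, _, rfl⟩

lemma gen_mono (i j : ℕ) : ∃ t1 t2 t3, gen (mono (k := k) i j) =
    m3 (MvPolynomial.X 0 ^ i * MvPolynomial.X 1 ^ j) t1 t2
      (MvPolynomial.X 2 ^ i * MvPolynomial.X 3 ^ j) t3
      (MvPolynomial.X 4 ^ i * MvPolynomial.X 5 ^ j) := by
  rw [mono, map_mul, map_pow, map_pow, gen_false, gen_true]
  obtain ⟨a1, a2, a3, ha⟩ := m3_pow (MvPolynomial.X 0 : MvPolynomial (Fin 6) k) 0 0
    (MvPolynomial.X 2) 0 (MvPolynomial.X 4) i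
  obtain ⟨b1, b2, b3, hb⟩ := m3_pow (MvPolynomial.X 1 : MvPolynomial (Fin 6) k) 1 0
    (MvPolynomial.X 3) 1 (MvPolynomial.X 5) j
  rw [ha, hb, m3_mul]
  exact ⟨_, _, _, rfl⟩

lemma lin_ext {n : ℕ} {F G : MvPolynomial (Fin n) k →ₗ[k] MvPolynomial (Fin 6) k}
    (h : ∀ s, F (MvPolynomial.monomial s 1) = G (MvPolynomial.monomial s 1)) : F = G := by
  refine (MvPolynomial.basisMonomials (Fin n) k).ext fun s => ?_
  rw [MvPolynomial.coe_basisMonomials]
  exact h s

/-- The entry `(i, j)` as a linear map. -/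
noncomputable def ent (i j : Fin 3) : FreeAlgebra k Bool →ₗ[k] MvPolynomial (Fin 6) k :=
  (Matrix.entryLinearMap k (MvPolynomial (Fin 6) k) i j).comp gen.toLinearMap

lemma ent_apply (i j : Fin 3) (f : FreeAlgebra k Bool) : ent i j f = gen f i j := rfl

lemma rename_monomial_one {n : ℕ} (g : Fin n → Fin 6) (s : Fin n →₀ ℕ) :
    MvPolynomial.rename g (MvPolynomial.monomial s (1 : k)) =
      ∏ t, MvPolynomial.X (g t) ^ (s t) := by
  rw [MvPolynomial.monomial_eq, map_mul, MvPolynomial.rename_C, map_one, one_mul,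
    Finsupp.prod_fintype _ _ (fun i => pow_zero _), map_prod]
  simp

lemma ent_E0 (P : MvPolynomial (Fin 2) k) :
    gen (E0 P) 0 0 = MvPolynomial.rename ![0, 1] P := by
  have h : (ent 0 0).comp E0 = (MvPolynomial.rename (R := k) ![0, 1]).toLinearMap := by
    apply lin_ext
    intro s
    rw [LinearMap.comp_apply, E0_monomial, ent_apply, AlgHom.toLinearMap_apply,
      rename_monomial_one]
    obtain ⟨t1, t2, t3, h⟩ := gen_mono (k := k) (s 0) (s 1)
    rw [h]
    simp [m3, Fin.prod_univ_two]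
  exact LinearMap.congr_fun h P

lemma ent_E1 (P : MvPolynomial (Fin 4) k) :
    gen (E1 P) 0 1 = MvPolynomial.rename ![0, 1, 2, 3] P *
      (MvPolynomial.X 0 - MvPolynomial.X 2) := by
  have h : (ent 0 1).comp E1 = (LinearMap.mulRight k (MvPolynomial.X 0 - MvPolynomial.X 2)).comp
      (MvPolynomial.rename (R := k) ![0, 1, 2, 3]).toLinearMap := by
    apply lin_ext
    intro s
    rw [LinearMap.comp_apply, E1_monomial, ent_apply, LinearMap.comp_apply,
      AlgHom.toLinearMap_apply, rename_monomial_one, LinearMap.mulRight_apply, map_mul, map_mul,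
      gen_com]
    obtain ⟨t1, t2, t3, h⟩ := gen_mono (k := k) (s 0) (s 1)
    obtain ⟨t1', t2', t3', h'⟩ := gen_mono (k := k) (s 2) (s 3)
    rw [h, h', m3_mul, m3_mul]
    simp [m3, Fin.prod_univ_four]
    ring
  exact LinearMap.congr_fun h P

lemma ent_E2 (P : MvPolynomial (Fin 6) k) :
    gen (E2 P) 0 2 = P * (MvPolynomial.X 0 - MvPolynomial.X 2) *
      (MvPolynomial.X 2 - MvPolynomial.X 4) := by
  have h : (ent 0 2).comp E2 = (LinearMap.mulRight k ((MvPolynomial.X 0 - MvPolynomial.X 2) *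
      (MvPolynomial.X 2 - MvPolynomial.X 4))) := by
    apply lin_ext
    intro s
    rw [LinearMap.comp_apply, E2_monomial, ent_apply, LinearMap.mulRight_apply, map_mul, map_mul,
      map_mul, map_mul, gen_com]
    obtain ⟨t1, t2, t3, h⟩ := gen_mono (k := k) (s 0) (s 1)
    obtain ⟨t1', t2', t3', h'⟩ := gen_mono (k := k) (s 2) (s 3)
    obtain ⟨t1'', t2'', t3'', h''⟩ := gen_mono (k := k) (s 4) (s 5)
    rw [h, h', h'', m3_mul, m3_mul, m3_mul, m3_mul]
    have e := rename_monomial_one (k := k) (id : Fin 6 → Fin 6) s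
    rw [MvPolynomial.rename_id, AlgHom.id_apply] at e
    rw [e]
    simp [m3, Fin.prod_univ_six]
    ring
  have := LinearMap.congr_fun h P
  rw [LinearMap.mulRight_apply] at this
  rw [mul_assoc]
  exact this

lemma gen_E1_diag (P : MvPolynomial (Fin 4) k) : gen (E1 P) 0 0 = 0 := by
  have h : (ent 0 0).comp (E1 (k := k)) = 0 := by
    apply lin_ext
    intro s
    rw [LinearMap.comp_apply, E1_monomial, ent_apply, map_mul, map_mul, gen_com]
    obtain ⟨t1, t2, t3, h⟩ := gen_mono (k := k) (s 0) (s 1)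
    obtain ⟨t1', t2', t3', h'⟩ := gen_mono (k := k) (s 2) (s 3)
    rw [h, h', m3_mul, m3_mul]
    simp [m3]
  exact LinearMap.congr_fun h P

lemma gen_E2_low (P : MvPolynomial (Fin 6) k) :
    gen (E2 P) 0 0 = 0 ∧ gen (E2 P) 0 1 = 0 := by
  have h : ∀ j : Fin 3, j ≠ 2 → (ent 0 j).comp (E2 (k := k)) = 0 := by
    intro j hj
    apply lin_ext
    intro s
    rw [LinearMap.comp_apply, E2_monomial, ent_apply, map_mul, map_mul, map_mul, map_mul, gen_com]
    obtain ⟨t1, t2, t3, h⟩ := gen_mono (k := k) (s 0) (s 1)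
    obtain ⟨t1', t2', t3', h'⟩ := gen_mono (k := k) (s 2) (s 3)
    obtain ⟨t1'', t2'', t3'', h''⟩ := gen_mono (k := k) (s 4) (s 5)
    rw [h, h', h'', m3_mul, m3_mul, m3_mul, m3_mul]
    fin_cases j
    · simp [m3]
    · simp [m3]
    · exact absurd rfl hj
  exact ⟨LinearMap.congr_fun (h 0 (by decide)) P, LinearMap.congr_fun (h 1 (by decide)) P⟩

lemma gen_upper (f : FreeAlgebra k Bool) : ∃ a b c d e g, gen f = m3 a b c d e g := by
  induction f using FreeAlgebra.induction with
  | grade0 r =>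
    refine ⟨algebraMap k _ r, 0, 0, algebraMap k _ r, 0, algebraMap k _ r, ?_⟩
    rw [AlgHom.commutes]
    ext1 i j
    rw [Matrix.algebraMap_matrix_apply]
    fin_cases i <;> fin_cases j <;> simp [m3]
  | grade1 b =>
    cases b with
    | false => rw [gen_false]; exact ⟨_, _, _, _, _, _, rfl⟩
    | true => rw [gen_true]; exact ⟨_, _, _, _, _, _, rfl⟩
  | mul f g hf hg =>
    obtain ⟨a, b, c, d, e, h, h1⟩ := hf
    obtain ⟨a', b', c', d', e', h', h2⟩ := hg
    rw [map_mul, h1, h2, m3_mul]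
    exact ⟨_, _, _, _, _, _, rfl⟩
  | add f g hf hg =>
    obtain ⟨a, b, c, d, e, h, h1⟩ := hf
    obtain ⟨a', b', c', d', e', h', h2⟩ := hg
    rw [map_add, h1, h2, m3_add]
    exact ⟨_, _, _, _, _, _, rfl⟩

lemma gen_cube {x : FreeAlgebra k Bool} (hx : x ∈ comCube k) : gen x = 0 := by
  unfold comCube at hx
  induction hx using Submodule.span_induction with
  | mem x h =>
    obtain ⟨a, b, d, e, rfl⟩ := h
    obtain ⟨a1, a2, a3, a4, a5, a6, ha⟩ := gen_upper a
    obtain ⟨b1, b2, b3, b4, b5, b6, hb⟩ := gen_upper b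
    obtain ⟨d1, d2, d3, d4, d5, d6, hd⟩ := gen_upper d
    obtain ⟨e1, e2, e3, e4, e5, e6, he⟩ := gen_upper e
    rw [map_mul, map_mul, map_mul, map_mul, map_mul, map_mul, gen_com, ha, hb, hd, he, m3_mul,
      m3_mul, m3_mul, m3_mul, m3_mul, m3_mul]
    ext1 i j
    fin_cases i <;> fin_cases j <;> simp [m3]
  | zero => exact map_zero _
  | add x y _ _ hx hy => rw [map_add, hx, hy, add_zero]
  | smul r x _ hx => rw [map_smul, hx, smul_zero]

lemma diff_cancel {i j : Fin 6} (hij : i ≠ j) {F : MvPolynomial (Fin 6) k}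
    (h : F * (MvPolynomial.X i - MvPolynomial.X j) = 0) : F = 0 := by
  let φ : MvPolynomial (Fin 6) k →ₐ[k] MvPolynomial (Fin 6) k :=
    MvPolynomial.aeval (fun t => if t = i then MvPolynomial.X i + MvPolynomial.X j
      else MvPolynomial.X t)
  let ψ : MvPolynomial (Fin 6) k →ₐ[k] MvPolynomial (Fin 6) k :=
    MvPolynomial.aeval (fun t => if t = i then MvPolynomial.X i - MvPolynomial.X j
      else MvPolynomial.X t)
  have h1 : φ F * MvPolynomial.X i = 0 := by
    have := congrArg φ h
    rw [map_mul, map_sub, map_zero] at this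
    have e1 : φ (MvPolynomial.X i) = MvPolynomial.X i + MvPolynomial.X j := by simp [φ]
    have e2 : φ (MvPolynomial.X j) = MvPolynomial.X j := by
      simp [φ, hij.symm]
    rw [e1, e2, add_sub_cancel_right] at this
    exact this
  have h2 : φ F = 0 := by
    apply (MvPolynomial.isRegular_X (R := k) (n := i)).right
    simpa using h1
  have h3 : ψ.comp φ = AlgHom.id k _ := by
    apply MvPolynomial.algHom_ext
    intro t
    by_cases ht : t = i
    · subst ht
      simp [φ, ψ, hij.symm]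
    · simp [φ, ψ, ht]
  have h4 := AlgHom.congr_fun h3 F
  rw [AlgHom.comp_apply, h2, map_zero] at h4
  exact h4.symm

/-- An element which vanishes at the generic pair of matrices lies in the cube. -/
theorem mem_cube {f : FreeAlgebra k Bool} (h : gen f = 0) : f ∈ comCube k := by
  have hf := MMod_top f
  unfold MMod at hf
  obtain ⟨y1, hy1, z, hz, rfl⟩ := Submodule.mem_sup.mp hf
  obtain ⟨y2, hy2, w, ⟨F2, rfl⟩, rfl⟩ := Submodule.mem_sup.mp hy1
  obtain ⟨y, ⟨F0, rfl⟩, v, ⟨F1, rfl⟩, rfl⟩ := Submodule.mem_sup.mp hy2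
  rw [map_add, gen_cube hz, add_zero, map_add, map_add] at h
  have h00 := congrFun (congrFun h 0) 0
  rw [Matrix.add_apply, Matrix.add_apply, ent_E0, gen_E1_diag, (gen_E2_low F2).1, add_zero,
    add_zero, Matrix.zero_apply] at h00
  have hF0 : F0 = 0 := by
    apply MvPolynomial.rename_injective (R := k) (![0, 1] : Fin 2 → Fin 6) (by decide)
    rw [h00, map_zero]
  subst hF0
  rw [map_zero, map_zero, zero_add] at h
  have h01 := congrFun (congrFun h 0) 1
  rw [Matrix.add_apply, ent_E1, (gen_E2_low F2).2, add_zero, Matrix.zero_apply] at h01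
  have hF1 : F1 = 0 := by
    apply MvPolynomial.rename_injective (R := k) (![0, 1, 2, 3] : Fin 4 → Fin 6) (by decide)
    rw [map_zero]
    exact diff_cancel (by decide) h01
  subst hF1
  rw [map_zero, map_zero, zero_add] at h
  have h02 := congrFun (congrFun h 0) 2
  rw [ent_E2, Matrix.zero_apply] at h02
  have hF2 : F2 = 0 := diff_cancel (by decide) (diff_cancel (by decide) h02)
  subst hF2
  simpa using hz

end eval

end Pool.Agent.MP_a57f33_nt.Tri
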