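import Pool.Agent.Lib.MP_a57f33_nt.Tri.Layer3
import Pool.Agent.Lib.MP_a57f33_nt.Ops

/-!
The dual of a solution of the regularised double shuffle relations satisfies the relations of
depth one.
-/

namespace Pool.Agent.MP_a57f33_nt.Tri

set_option linter.unusedSectionVars false

open Pool.Agent.MP_a57f33_nt.Cyc

variable {k : Type*} [CommRing k]

lemma insK_snoc (a d : Bool) (w : List Bool) : ∀ c : List Bool → k,
    insK a (w ++ [d]) c = insK a w (fun t => c (t ++ [d])) + c (w ++ [d, a]) := by
  induction w with
  | nil => intro c; simp [insK]
  | cons b w ih => intro c; simp only [List.cons_append, insK, ih]; ring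

lemma insK_dual (a : Bool) (w : List Bool) : ∀ c : List Bool → k,
    insK a w (fun t => c (dualWord t)) = insK (!a) (dualWord w) c := by
  induction w with
  | nil => intro c; simp [insK, dualWord]
  | cons b w ih =>
    intro c
    have h1 := ih (fun t => c (t ++ [!b]))
    simp only [insK, dualWord_cons] at h1 ⊢
    rw [h1, insK_snoc]
    simp only [List.append_assoc, List.cons_append, List.nil_append]
    ring

lemma cut_dual (w : List Bool) : ∀ F : List Bool → List Bool → k,
    cut (dualWord w) F = cut w (fun p q => F (dualWord q) (dualWord p)) := by
  induction w with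
  | nil => intro F; rfl
  | cons e w ih =>
    intro F
    rw [dualWord_cons, cut_snoc, ih]
    simp only [cut, dualWord_cons, dualWord_nil]
    ring

lemma conv_dual (f g : List Bool → k) (w : List Bool) :
    Cyc.conv f g (dualWord w) = Cyc.conv (fun t => g (dualWord t)) (fun t => f (dualWord t)) w := by
  unfold Cyc.conv
  rw [cut_dual]
  apply cut_congr
  intro p q _
  ring

lemma pw_dual (b : Bool) (g : ℕ → k) (w : List Bool) : pw b g (dualWord w) = pw (!b) g w := by
  unfold pw
  rw [dualWord_length]
  have h : dualWord w = List.replicate w.length b ↔ w = List.replicate w.length (!b) := by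
    constructor
    · intro h
      have h2 := congrArg dualWord h
      rw [dualWord_dualWord] at h2
      rw [h2]
      simp [dualWord]
    · intro h
      conv_lhs => rw [h]
      simp [dualWord]
  simp only [h]

lemma pos_dual (w : List Bool) : ∀ K : List Bool → Bool → List Bool → k,
    pos (dualWord w) K = pos w (fun p a q => K (dualWord q) (!a) (dualWord p)) := by
  induction w with
  | nil => intro K; rfl
  | cons e w ih =>
    intro K
    rw [dualWord_cons, pos_snoc, ih]
    simp only [pos, dualWord_cons, dualWord_nil]
    ring

lemma MM_dual (Z : List Bool → k) (w : List Bool) :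
    MM (fun t => Z (dualWord t)) w = - MM Z (dualWord w) := by
  unfold MM
  rw [pos_dual, show -(pos w fun p a q => sg (!a) * Z (dualWord q ++ false :: true :: dualWord p)) =
    pos w (fun p a q => (-1) * (sg (!a) * Z (dualWord q ++ false :: true :: dualWord p))) by
      rw [pos_mul w (-1) (fun p a q => sg (!a) * Z (dualWord q ++ false :: true :: dualWord p))]
      ring]
  apply pos_congr
  intro p a q _
  have h1 : dualWord (p ++ false :: true :: q) = dualWord q ++ false :: true :: dualWord p := by
    simp [dualWord_append, dualWord_cons]
  beta_reduce
  rw [h1]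
  cases a <;> simp [sg]

lemma befK_sum (w : List Bool) : ∀ c : List Bool → k,
    c (w ++ [false]) + befK true [false] w c + befK false [false] w c = insK false w c := by
  induction w with
  | nil => intro c; simp [befK, insK]
  | cons d w ih =>
    intro c
    have := ih (fun t => c (d :: t))
    simp only [befK, insK]
    cases d <;> simp at this ⊢ <;> linear_combination this

lemma insK_ones (n : ℕ) : ∀ (f : List Bool → k),
    insK true (List.replicate n true) f = (n + 1) * f (List.replicate (n + 1) true) := by
  induction n with
  | zero => intro f; simp [insK]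
  | succ n ih =>
    intro f
    have h0 : List.replicate (n + 1) true = true :: List.replicate n true := List.replicate_succ
    rw [h0, insK, ih]
    simp only [List.replicate_succ]
    push_cast
    ring

lemma aftK_ones (v : List Bool) (n : ℕ) : ∀ (f : List Bool → k),
    aftK false v (List.replicate n true) f = 0 := by
  induction n with
  | zero => intro f; rfl
  | succ n ih => intro f; rw [List.replicate_succ, aftK, ih]; simp

lemma befK_ones (v : List Bool) (n : ℕ) : ∀ (f : List Bool → k),
    befK false v (List.replicate n true) f = 0 := by
  induction n with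
  | zero => intro f; rfl
  | succ n ih => intro f; rw [List.replicate_succ, befK, ih]; simp

lemma conv_zero_of (f g : List Bool → k) (w : List Bool) (h : ∀ p q, p ++ q = w → f p * g q = 0) :
    Cyc.conv f g w = 0 := by
  unfold Cyc.conv
  exact (cut_congr w h).trans (cut_zero w)

section
variable [Algebra ℚ k] {γ : ℕ → k} {Z : List Bool → k} (h : RegDS γ Z)

include h

lemma RegDS_ones (n : ℕ) : Z (List.replicate (n + 1) true) = 0 := by
  have h1 := insK_ones n Z
  rw [h.ins_one] at h1
  apply rat_cancel (n := n)
  linear_combination -h1

/-- Duality in depth one. -/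
lemma RegDS_depth_one (n : ℕ) :
    Z (false :: List.replicate n true) = Z (zz n ++ [true]) := by
  cases n with
  | zero => simp [h.x0, h.x1]
  | succ n =>
    set w := List.replicate (n + 1) true with hw
    have h1 := h.MM w
    rw [MM_eq, hw, aftK_ones, ← hw] at h1
    have h2 := befK_sum w Z
    rw [h.ins_zero, hw, befK_ones, ← hw] at h2
    have e1 : Cyc.conv (pw true (gseq Z)) Z w = gseq Z (n + 1) := by
      have key : ∀ (m : ℕ) (g : ℕ → k), Cyc.conv (pw true g) Z (List.replicate m true) = g m := by
        intro m
        induction m with
        | zero => intro g; simp [Cyc.conv, cut, pw_nil, h.one]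
        | succ m ih =>
          intro g
          have e : Cyc.conv (pw true g) Z (true :: List.replicate m true) =
              pw true g [] * Z (true :: List.replicate m true) +
                Cyc.conv (fun t => pw true g (true :: t)) Z (List.replicate m true) := rfl
          have e2 : (fun t => pw true g (true :: t)) = pw true (fun n => g (n + 1)) := by
            funext t; exact pw_cons true g t
          have e3 := RegDS_ones h m
          rw [List.replicate_succ] at e3
          rw [List.replicate_succ, e, e2, ih, e3]
          ring
      exact key (n + 1) _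
    have e2 : Cyc.conv Z (pw false (gseq Z)) w = 0 := by
      apply conv_zero_of
      intro p q hpq
      by_cases hq : q = []
      · subst hq
        rw [pw_nil]
        simp [gseq, h.x1]
      · have : true ∈ q := by
          have hall : ∀ b ∈ w, b = true := fun b hb => (List.mem_replicate.mp hb).2
          cases q with
          | nil => exact absurd rfl hq
          | cons b q =>
            have : b = true := hall b (by rw [← hpq]; simp)
            simp [this]
        rw [pw_mem _ _ _ (by simpa using this)]
        ring
    rw [e1, e2] at h1
    -- Z(x₁^(n+1) x₀) = g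
    have e3 : Z (w ++ [false]) = gseq Z (n + 1) := by linear_combination h1 + h2
    -- antipode
    have e4 := congrFun (conv_ant_right h.isChar) (false :: w)
    have e5 : Cyc.conv Z (ant Z) (false :: w) = ant Z (false :: w) + Z (false :: w) := by
      have e6 : Cyc.conv Z (ant Z) (false :: w) = Z [] * ant Z (false :: w) +
          cut w (fun p q => Z (false :: p) * ant Z q) := rfl
      have key : ∀ (m : ℕ) (F : List Bool → k), cut (List.replicate m true)
          (fun p q => F p * ant Z q) = F (List.replicate m true) := by
        intro m
        induction m with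
        | zero => intro F; simp [cut, ant, h.one]
        | succ m ih =>
          intro F
          have e7 : ant Z (true :: List.replicate m true) = 0 := by
            have : true :: List.replicate m true = List.replicate (m + 1) true :=
              List.replicate_succ.symm
            rw [this, ant, List.reverse_replicate, RegDS_ones h m, mul_zero]
          rw [List.replicate_succ]
          simp only [cut]
          rw [e7, ih (fun p => F (true :: p))]
          ring
      rw [e6, h.one, one_mul, hw, key (n + 1) (fun p => Z (false :: p))]
    rw [e5] at e4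
    have e8 : ee (false :: w) = (0 : k) := by simp [ee]
    have e9 : ant Z (false :: w) = (-1) ^ (n + 2) * Z (w ++ [false]) := by
      have r1 : (false :: w).reverse = w ++ [false] := by
        rw [List.reverse_cons, hw, List.reverse_replicate]
      have r2 : (false :: w).length = n + 2 := by simp [hw]
      rw [ant, r1, r2]
    rw [e8, e9, e3] at e4
    have e10 : Z (false :: w) = -((-1) ^ (n + 2) * gseq Z (n + 1)) := by linear_combination e4
    rw [e10, gseq, pow_succ (-1 : k) (n + 1)]
    have e11 : (-1 : k) ^ (n + 1) * (-1) ^ (n + 1) = 1 := by
      rw [← mul_pow]; simp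
    linear_combination (Z (zz (n + 1) ++ [true])) * e11

lemma gseq_dual : gseq (fun t => Z (dualWord t)) = gseq Z := by
  funext j
  unfold gseq
  have : dualWord (zz j ++ [true]) = false :: List.replicate j true := by
    simp [dualWord]
  beta_reduce
  rw [this, RegDS_depth_one h]

lemma hseq_dual (m : ℕ) : hseq (fun t => Z (dualWord t)) m = hseq Z m := by
  funext j
  unfold hseq
  have : dualWord (zz (m + j) ++ [true]) = false :: List.replicate (m + j) true := by
    simp [dualWord]
  beta_reduce
  rw [this, RegDS_depth_one h]

lemma dual_ins_zero (w : List Bool) : insK false w (fun t => Z (dualWord t)) = 0 := by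
  rw [insK_dual]; exact h.ins_one _

lemma dual_ins_one (w : List Bool) : insK true w (fun t => Z (dualWord t)) = 0 := by
  rw [insK_dual]; exact h.ins_zero _

lemma dual_MM (w : List Bool) : MM (fun t => Z (dualWord t)) w =
    Cyc.conv (pw true (gseq Z)) (fun t => Z (dualWord t)) w -
      Cyc.conv (fun t => Z (dualWord t)) (pw false (gseq Z)) w := by
  rw [MM_dual, h.MM, conv_dual, conv_dual]
  have e1 : (fun t => pw true (gseq Z) (dualWord t)) = pw false (gseq Z) := by
    funext t; exact pw_dual true _ t
  have e2 : (fun t => pw false (gseq Z) (dualWord t)) = pw true (gseq Z) := by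
    funext t; exact pw_dual false _ t
  rw [e1, e2]
  ring

lemma dual_EE_zero (w : List Bool) : EE (fun t => Z (dualWord t)) 0 w = 0 := by
  have h1 := aftK_sum w (fun t => Z (dualWord t))
  rw [dual_ins_one h] at h1
  have h2 := dual_MM h w
  rw [MM_eq] at h2
  have h3 : RK 0 w (fun t => Z (dualWord t)) = (fun t => Z (dualWord t)) (true :: w) +
      aftK true [true] w (fun t => Z (dualWord t)) +
      befK true [false] w (fun t => Z (dualWord t)) := by
    simp [RK]
  have h4 : hseq Z 0 = gseq Z := by
    funext j; simp [hseq, gseq]
  unfold EE
  rw [h3, hseq_dual h, gseq_dual h, if_pos rfl, h4]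
  linear_combination h1 - h2

lemma dual_EE_rec (m : ℕ) (w : List Bool) :
    insK false w (EE (fun t => Z (dualWord t)) m) +
      ((m : k) + 1) * EE (fun t => Z (dualWord t)) (m + 1) w = 0 := by
  set Y : List Bool → k := fun t => Z (dualWord t) with hY
  have h1 := comm_RK m w Y
  have h2 : (fun t => insK false t Y) = fun _ => 0 := by
    funext t; exact dual_ins_zero h t
  rw [h2, RK_zero] at h1
  have h3 : insK false w (Cyc.conv Y (pw false (hseq Y m))) =
      - (((m : k) + 1) * Cyc.conv Y (pw false (hseq Y (m + 1))) w) := by
    rw [insK_conv, h2]
    have e1 : (fun t => insK false t (pw false (hseq Y m))) =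
        fun t => (-((m : k) + 1)) * pw false (hseq Y (m + 1)) t := by
      funext t
      rw [ins_pw_false]
      unfold pw
      split_ifs
      · have := hseq_rel Y m t.length
        linear_combination this
      · ring
    have e2 : Cyc.conv (fun _ => (0 : k)) (pw false (hseq Y m)) w = 0 := by
      refine (cut_congr w ?_).trans (cut_zero w)
      intro p q _; ring
    rw [e1, conv_mul_right, e2]
    ring
  have h4 : insK false w (Cyc.conv (pw true (gseq Y)) Y) = 0 := by
    rw [insK_conv, h2]
    have e1 : (fun t => insK false t (pw true (gseq Y))) = fun _ => (0 : k) := by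
      funext t; exact ins_pw_true _ t
    rw [e1]
    unfold Cyc.conv
    rw [← cut_add]
    refine (cut_congr w ?_).trans (cut_zero w)
    intro p q _; ring
  have h5 : insK false w (EE Y m) = insK false w (fun t => RK m t Y) -
      (insK false w (Cyc.conv Y (pw false (hseq Y m))) - (if m = 0 then 1 else 0) *
        insK false w (Cyc.conv (pw true (gseq Y)) Y)) := by
    have : EE Y m = fun t => (fun t => RK m t Y) t - (fun t => Cyc.conv Y (pw false (hseq Y m)) t -
      (fun t => (if m = 0 then 1 else 0) * Cyc.conv (pw true (gseq Y)) Y t) t) t := rfl
    rw [this, insK_sub, insK_sub, insK_mul]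
  rw [h5, h3, h4]
  unfold EE
  rw [if_neg (Nat.succ_ne_zero m)]
  linear_combination -h1

lemma dual_EE (m : ℕ) : ∀ w, EE (fun t => Z (dualWord t)) m w = 0 := by
  induction m with
  | zero => exact dual_EE_zero h
  | succ m ih =>
    intro w
    have h1 := dual_EE_rec h m w
    have h2 : insK false w (EE (fun t => Z (dualWord t)) m) = 0 := by
      apply insK_eq_zero
      intro p q _
      exact ih _
    rw [h2, zero_add] at h1
    apply rat_cancel (n := m)
    linear_combination h1

lemma toX_end (u : List ℕ+) : toX u = [] ∨ ∃ v, toX u = v ++ [true] := by
  by_cases hu : u = []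
  · left; subst hu; rfl
  · right
    clear h
    induction u with
    | nil => exact absurd rfl hu
    | cons b r ih =>
      cases r with
      | nil => exact ⟨zz ((b : ℕ) - 1), by simp [toX]⟩
      | cons b' r' =>
        obtain ⟨v, hv⟩ := ih (by simp)
        refine ⟨zz ((b : ℕ) - 1) ++ true :: v, ?_⟩
        rw [toX, hv]; simp

lemma Rel_self : Rel (fun m => Z (toX [m])) (gseq Z) (fun u => Z (toX u)) := by
  intro m u
  by_cases hm : m = 1
  · subst hm
    have : Z (toX [1]) = 0 := by simpa [toX] using h.x1
    rw [h.so_one, if_pos rfl]
    beta_reduce
    rw [this]; ring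
  · rw [h.so_ne m hm, if_neg hm]; ring

lemma Rel_dual : Rel (fun m => Z (toX [m])) (gseq Z) (fun u => Z (dualWord (toX u))) := by
  intro m u
  have h0 : (m : ℕ) - 1 + 1 = m := by have := m.pos; omega
  have h1 := so_toX m u (fun t => Z (dualWord t))
  have h2 := dual_EE h ((m : ℕ) - 1) (toX u)
  unfold EE at h2
  rw [conv_no_tail _ _ _ (toX_end h u), conv_pw_toX, ← h1, hseq_dual h, gseq_dual h] at h2
  have h3 : ((m : ℕ) - 1 = 0) ↔ m = 1 := by
    constructor
    · intro e; apply PNat.eq; rw [PNat.one_coe]; omega
    · rintro rfl; rfl
  have h4 : hseq Z ((m : ℕ) - 1) 0 = Z (toX [m]) := by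
    simp [hseq, toX]
  rw [h4] at h2
  simp only [h3] at h2
  beta_reduce at h2 ⊢
  split_ifs with hm
  · rw [if_pos hm] at h2; linear_combination h2
  · rw [if_neg hm] at h2; linear_combination h2

lemma so_sub' (m : ℕ+) (u : List ℕ+) (f g : List ℕ+ → k) :
    so m u (fun t => f t - g t) = so m u f - so m u g := by
  have e : (fun t => f t - g t) = fun t => f t + (fun t => (-1) * g t) t := by
    funext t; ring
  rw [e, so_add, so_mul]; ring

lemma st_sub' (F G : List ℕ+ → k) (u : List ℕ+) : ∀ γ : ℕ → k,
    st γ (fun t => F t - G t) u = st γ F u - st γ G u := by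
  clear h
  induction u with
  | nil => intro γ; simp only [st]; ring
  | cons b v ih => intro γ; simp only [st, ih]; split_ifs <;> ring

lemma Rel_diff : Rel (fun m => Z (toX [m])) (gseq Z)
    (fun u => Z (toX u) - Z (dualWord (toX u))) := by
  intro m u
  have h1 := Rel_self h m u
  have h2 := Rel_dual h m u
  rw [so_sub' h, st_sub' h, h1, h2]
  split_ifs <;> ring

end

end Pool.Agent.MP_a57f33_nt.Tri
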