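import Pool.Agent.Lib.MP_a57f33_nt.Tri.Dual
import Pool.Agent.Lib.MP_a57f33_nt.CycLie

/-!
The two instances: solutions of the regularised double shuffle relations, and the elements of
the double shuffle Lie algebra.
-/

namespace Pool.Agent.MP_a57f33_nt.Tri

set_option linter.unusedSectionVars false

open Pool.Agent.MP_a57f33_nt.Cyc

section group

variable {k : Type} [CommRing k]

lemma ser_reverse {K : Type} [CommRing K] [Algebra k K] (p q : K) (n : ℕ) (c : List Bool → k) :
    ser p q n (fun t => c t.reverse) = ser p q n c := by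
  have h2 := ser_flip (m3 p 0 0 0 0 0) (m3 q 0 0 0 0 0) n c
  rw [ser_m3, flip3_m3, flip3_m3, flip3_m3, ser_m3] at h2
  exact (m3_inj h2).2.2.2.2.2

lemma ser_ant {K : Type} [CommRing K] [Algebra k K] (p q : K) (n : ℕ) (c : List Bool → k) :
    ser p q n (ant c) = (-1) ^ n * ser p q n c := by
  have h1 : ser p q n (ant c) = ((-1 : k) ^ n) • ser p q n (fun t => c t.reverse) := by
    rw [← ser_smul]
    apply ser_congr
    intro t ht
    rw [ant, ht]
  rw [h1, ser_reverse, Algebra.smul_def]
  simp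

/-- One dimensional representations of a function invariant under translations. -/
lemma ser_scalar' {K : Type} [CommRing K] [Algebra k K] [Algebra ℚ K] {D : List Bool → k}
    (h0 : ∀ w, insK false w D = 0)
    (h1 : ∀ w, insK true w D = 0) (p q : K) (n : ℕ) : ser p q (n + 1) D = 0 := by
  have h := ser_translate h0 h1 (m2 (0 : K) 0 0) (m2 (0 : K) 0 0) p q (n + 1)
  have e : ∀ r : K, m2 (0 : K) 0 0 + r • (1 : Matrix (Fin 2) (Fin 2) K) = m2 r 0 r := by
    intro r
    ext i j
    fin_cases i <;> fin_cases j <;> simp [m2]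
  rw [e, e, ser_m2, ser_m2] at h
  rw [(m2_inj h).1]
  simp [ser]

lemma conv_dual_ant {Z : List Bool → k} (hZ : IsChar Z) :
    Cyc.conv (fun t => Z (dualWord t)) (ant (fun t => Z (dualWord t))) = ee := by
  funext w
  have h1 := conv_dual (fun t => Z (dualWord t)) (ant (fun t => Z (dualWord t))) (dualWord w)
  rw [dualWord_dualWord] at h1
  rw [h1]
  have e1 : (fun t => ant (fun t => Z (dualWord t)) (dualWord t)) = ant Z := by
    funext t
    unfold ant
    rw [dualWord_length]
    congr 2
    have hn : (not ∘ not) = id := by funext b; simp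
    simp [dualWord, hn]
  have e2 : (fun t => (fun t => Z (dualWord t)) (dualWord t)) = Z := by
    funext t; simp
  rw [e1, e2, conv_ant_left hZ]
  unfold ee
  by_cases hw : w = []
  · subst hw; simp
  · rw [if_neg hw, if_neg (dualWord_ne_nil hw)]

/-- The antipode changes the sign of the second layer of the difference of a solution and its
dual. -/
lemma hant_group [Algebra ℚ k] {γ : ℕ → k} {Z : List Bool → k} (h : RegDS γ Z) (K : Type)
    [CommRing K] [Algebra k K] [Algebra ℚ K] (p0 q0 s1 r1 s' r' p1 q1 s2 r2 p2 q2 : K) (n : ℕ) :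
    x3 p0 q0 s1 r1 s' r' p1 q1 s2 r2 p2 q2 n (ant (fun w => Z w - Z (dualWord w))) =
      - x3 p0 q0 s1 r1 s' r' p1 q1 s2 r2 p2 q2 n (fun w => Z w - Z (dualWord w)) := by
  set Y : List Bool → k := fun w => Z (dualWord w) with hY
  set D : List Bool → k := fun w => Z w - Y w with hD
  set A := m3 p0 s1 s' p1 s2 p2 with hA
  set B := m3 q0 r1 r' q1 r2 q2 with hB
  have hD0 : D [] = 0 := by simp [hD, hY]
  have hi0 : ∀ w, insK false w D = 0 := by
    intro w
    rw [hD, insK_sub, h.ins_zero, hY, dual_ins_zero h]; ring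
  have hi1 : ∀ w, insK true w D = 0 := by
    intro w
    rw [hD, insK_sub, h.ins_one, hY, dual_ins_one h]; ring
  have hc : Rel (fun m => Z (toX [m])) (gseq Z) (fun u => D (toX u)) := Rel_diff h
  have hl1 : ∀ (n : ℕ) (p0 q0 p1 q1 s r : K), x2 p0 q0 p1 q1 s r n D = 0 :=
    fun n p0 q0 p1 q1 s r => layer1 hc hD0 hi0 hi1 p0 q0 p1 q1 s r n
  have hsD : ∀ (n : ℕ), ser A B n D = m3 0 0 (x3 p0 q0 s1 r1 s' r' p1 q1 s2 r2 p2 q2 n D) 0 0 0 := by
    intro n
    rw [hA, hB, ser_m3, ser_scalar hD0 hi0 hi1, ser_scalar hD0 hi0 hi1, ser_scalar hD0 hi0 hi1,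
      hl1, hl1]
  have hsA : ∀ (n : ℕ), ser A B n (ant D) =
      m3 0 0 (x3 p0 q0 s1 r1 s' r' p1 q1 s2 r2 p2 q2 n (ant D)) 0 0 0 := by
    intro n
    rw [hA, hB, ser_m3, ser_ant, ser_ant, ser_ant, ser_scalar hD0 hi0 hi1,
      ser_scalar hD0 hi0 hi1, ser_scalar hD0 hi0 hi1, x2_ant_aux _ _ _ _ _ _ _ _ (hl1 n),
      x2_ant_aux _ _ _ _ _ _ _ _ (hl1 n)]
    simp
  have hsum : ∀ n, ∑ i ∈ Finset.range (n + 1), (ser A B i D * ser A B (n - i) (ant Z) +
      ser A B i Y * ser A B (n - i) (ant D)) = 0 := by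
    intro n
    have e1 := ser_conv A B n Z (ant Z)
    have e2 := ser_conv A B n Y (ant Y)
    rw [conv_ant_right h.isChar] at e1
    rw [hY, conv_dual_ant h.isChar, ← hY, e1] at e2
    rw [← sub_eq_zero, ← Finset.sum_sub_distrib] at e2
    rw [← e2]
    refine Finset.sum_congr rfl fun i _ => ?_
    have e3 : ser A B i D = ser A B i Z - ser A B i Y := ser_sub A B i Z Y
    have e4 : ser A B (n - i) (ant D) = ser A B (n - i) (ant Z) - ser A B (n - i) (ant Y) := by
      rw [← ser_sub]
      congr 1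
      funext t
      simp only [ant, hD]
      ring
    rw [e3, e4]
    noncomm_ring
  -- the entry (0,2)
  have key : ∀ i ∈ Finset.range (n + 1), (ser A B i D * ser A B (n - i) (ant Z) +
      ser A B i Y * ser A B (n - i) (ant D)) =
      m3 0 0 ((if i = n then x3 p0 q0 s1 r1 s' r' p1 q1 s2 r2 p2 q2 n D else 0) +
        (if i = 0 then x3 p0 q0 s1 r1 s' r' p1 q1 s2 r2 p2 q2 n (ant D) else 0)) 0 0 0 := by
    intro i hi
    rw [Finset.mem_range] at hi
    rw [hsD, hsA, hA, hB, ser_m3, ser_m3, m3_mul, m3_mul, m3_add]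
    have e1 : ser p2 q2 (n - i) (ant Z) = if i = n then (1 : K) else 0 := by
      rw [ser_ant]
      split_ifs with hin
      · subst hin; simp [ser, h.one]
      · obtain ⟨m, hm⟩ : ∃ m, n - i = m + 1 := ⟨n - i - 1, by omega⟩
        rw [hm, ser_scalar' h.ins_zero h.ins_one, mul_zero]
    have e2 : ser p0 q0 i Y = if i = 0 then (1 : K) else 0 := by
      split_ifs with hi0'
      · subst hi0'; simp [ser, hY, h.one]
      · obtain ⟨m, rfl⟩ := Nat.exists_eq_succ_of_ne_zero hi0'
        exact ser_scalar' (dual_ins_zero h) (dual_ins_one h) p0 q0 m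
    rw [e1, e2]
    have e3 : (x3 p0 q0 s1 r1 s' r' p1 q1 s2 r2 p2 q2 i D) * (if i = n then (1 : K) else 0) =
        if i = n then x3 p0 q0 s1 r1 s' r' p1 q1 s2 r2 p2 q2 n D else 0 := by
      split_ifs with hin
      · rw [hin, mul_one]
      · rw [mul_zero]
    have e4 : (if i = 0 then (1 : K) else 0) *
        (x3 p0 q0 s1 r1 s' r' p1 q1 s2 r2 p2 q2 (n - i) (ant D)) =
        if i = 0 then x3 p0 q0 s1 r1 s' r' p1 q1 s2 r2 p2 q2 n (ant D) else 0 := by
      split_ifs with hin
      · rw [hin, one_mul, Nat.sub_zero]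
      · rw [zero_mul]
    simp only [zero_mul, mul_zero, zero_add, add_zero]
    rw [e3, e4]
  have h2 := hsum n
  rw [Finset.sum_congr rfl key] at h2
  have h3 := congrFun (congrFun h2 0) 2
  rw [Matrix.sum_apply] at h3
  have h4 : ∀ x : K, (m3 0 0 x 0 0 0) 0 2 = x := fun x => by simp [m3]
  simp only [h4, Matrix.zero_apply] at h3
  rw [Finset.sum_add_distrib, Finset.sum_ite_eq', Finset.sum_ite_eq'] at h3
  simp only [Finset.mem_range, Nat.lt_succ_self, if_true, Nat.zero_lt_succ] at h3
  linear_combination h3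

/-- Duality for the sums over words evaluated at upper triangular matrices of size 3. -/
theorem group_m3 [Algebra ℚ k] {γ : ℕ → k} {Z : List Bool → k} (h : RegDS γ Z) (K : Type)
    [CommRing K] [Algebra k K] [Algebra ℚ K] (p0 q0 s1 r1 s' r' p1 q1 s2 r2 p2 q2 : K) (n : ℕ) :
    ser (m3 p0 s1 s' p1 s2 p2) (m3 q0 r1 r' q1 r2 q2) n (fun w => Z w - Z (dualWord w)) = 0 := by
  apply ser_m3_zero (D := fun w => Z w - Z (dualWord w)) (Rel_diff h)
  · simp
  · intro w
    rw [insK_sub, h.ins_zero, dual_ins_zero h]; ring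
  · intro w
    rw [insK_sub, h.ins_one, dual_ins_one h]; ring
  · intro w
    simp
  · intro K _ _ _ p0 q0 s1 r1 s' r' p1 q1 s2 r2 p2 q2 n
    exact hant_group h K p0 q0 s1 r1 s' r' p1 q1 s2 r2 p2 q2 n

end group

section lie

lemma stuffleOne_so (n : ℕ+) (u : List ℕ+) : ∀ f : List ℕ+ → ℚ,
    ((stuffleOne n u).map f).sum = so n u f := by
  induction u with
  | nil => intro f; simp [stuffleOne, so]
  | cons b v ih =>
    intro f
    rw [stuffleOne, so, ← ih]
    simp only [List.map_cons, List.sum_cons, List.map_map]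
    rw [add_assoc]
    rfl

lemma lie_Rel {ψ : QX} (h : ψ ∈ DS1) : Rel (fun _ => (0 : ℚ)) (fun _ => 0)
    (fun u => coeff ψ (toX u) - coeff ψ (dualWord (toX u))) := by
  have hd := dual_mem_DS1 h
  have hal : ∀ n, 1 ≤ n → coeff ψ (dualWord (zs n ++ [true])) = coeff ψ (zs n ++ [true]) := by
    intro n hn
    have := DS1_dual_depth_one h n hn
    unfold al at this
    rw [← this]
    simp [dualWord]
  have hst : (fun u => coeff ψ (toX u) - coeff ψ (dualWord (toX u))) =
      fun u => starCoeff ψ u - starCoeff (dual ψ) u := by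
    funext u
    unfold starCoeff
    rw [coeff_dual, coeff_dual]
    split_ifs with hu
    · rw [hal _ (by omega)]; ring
    · ring
  have st0 : ∀ (F : List ℕ+ → ℚ) (u : List ℕ+), st (fun _ => (0 : ℚ)) F u = 0 := by
    intro F u
    induction u with
    | nil => simp [st]
    | cons b v ih => simp [st, ih]
  intro m u
  rw [st0, hst]
  have h2 : so m u (fun u => starCoeff ψ u - starCoeff (dual ψ) u) = 0 := by
    have e : (fun t => starCoeff ψ t - starCoeff (dual ψ) t) =
        fun t => starCoeff ψ t + (fun t => (-1) * starCoeff (dual ψ) t) t := by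
      funext t; ring
    rw [e, so_add, so_mul]
    by_cases hu : u = []
    · subst hu
      simp only [so]
      have e1 : starCoeff ψ [m] = starCoeff (dual ψ) [m] := by
        unfold starCoeff
        simp only [List.length_cons, List.length_nil, zero_add]
        rw [if_neg (by omega), if_neg (by omega), coeff_dual]
        have e2 : toX [m] = zs ((m : ℕ) - 1) ++ [true] := by simp [toX]
        rw [e2]
        by_cases hm : (m : ℕ) - 1 = 0
        · rw [hm]
          simp only [List.replicate_zero, List.nil_append]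
          rw [show dualWord [true] = [false] from rfl, h.2.1, h.2.2.1]
        · rw [hal _ (by omega)]
      rw [e1]; ring
    · rw [← stuffleOne_so, ← stuffleOne_so, h.2.2.2.2 m u hu, hd.2.2.2.2 m u hu]
      ring
  rw [h2]
  simp

/-- Duality for the elements of `DS1` evaluated at upper triangular matrices of size 3. -/
theorem lie_m3 {ψ : QX} (h : ψ ∈ DS1) (K : Type)
    [CommRing K] [Algebra ℚ K] (p0 q0 s1 r1 s' r' p1 q1 s2 r2 p2 q2 : K) (n : ℕ) :
    ser (m3 p0 s1 s' p1 s2 p2) (m3 q0 r1 r' q1 r2 q2) n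
      (fun w => coeff ψ w - coeff ψ (dualWord w)) = 0 := by
  have hL : dual ψ ∈ LieX := dual_mem_LieX h.1
  have hins : ∀ φ ∈ LieX, ∀ a w, insK a w (coeff φ) = if w = [] then coeff φ [a] else 0 := by
    intro φ hφ a w
    split_ifs with hw
    · subst hw; rfl
    · rw [insK_eq]; exact (lie_ins hφ).2 a w hw
  have hd : (fun w => coeff ψ (dualWord w)) = coeff (dual ψ) := by
    funext w; rw [coeff_dual]
  apply ser_m3_zero (D := fun w => coeff ψ w - coeff ψ (dualWord w)) (lie_Rel h)
  · simp
  · intro w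
    rw [insK_sub, hd, hins ψ h.1, hins _ hL]
    split_ifs
    · rw [coeff_dual, show dualWord [false] = [true] from rfl, h.2.1, h.2.2.1]; ring
    · ring
  · intro w
    rw [insK_sub, hd, hins ψ h.1, hins _ hL]
    split_ifs
    · rw [coeff_dual, show dualWord [true] = [false] from rfl, h.2.1, h.2.2.1]; ring
    · ring
  · intro w
    simp
  · intro K _ i1 i2 p0 q0 s1 r1 s' r' p1 q1 s2 r2 p2 q2 n
    obtain rfl : i1 = i2 := Subsingleton.elim _ _
    have e1 : ant (fun w => coeff ψ w - coeff ψ (dualWord w)) =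
        fun w => - (fun w => coeff ψ w - coeff ψ (dualWord w)) w := by
      funext w
      have e2 : ∀ φ ∈ LieX, (-1 : ℚ) ^ w.length * coeff φ w.reverse = - coeff φ w := by
        intro φ hφ
        rw [lie_reverse hφ, ← mul_assoc, ← pow_add]
        have : (-1 : ℚ) ^ (w.length + (w.length + 1)) = -1 := by
          rw [show w.length + (w.length + 1) = 2 * w.length + 1 by ring, pow_succ, pow_mul]
          simp
        rw [this]; ring
      unfold ant
      beta_reduce
      rw [← coeff_dual, ← coeff_dual]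
      have e3 := e2 ψ h.1
      have e4 := e2 _ hL
      linear_combination e3 - e4
    rw [e1]
    have h := ser_neg (m3 p0 s1 s' p1 s2 p2) (m3 q0 r1 r' q1 r2 q2) n
      (fun w => coeff ψ w - coeff ψ (dualWord w))
    have f : ∀ a b c d e f : K, - m3 a b c d e f = m3 (-a) (-b) (-c) (-d) (-e) (-f) := by
      intro a b c d e f
      ext i j
      fin_cases i <;> fin_cases j <;> simp [m3]
    rw [ser_m3, ser_m3, f] at h
    exact (m3_inj h).2.2.1

end lie

end Pool.Agent.MP_a57f33_nt.Tri
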