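import Pool.Agent.Lib.MP_a57f33_nt.Tri.Mat

/-!
The vanishing of the first two layers of a function on words which satisfies the relations of
depth one and is antisymmetric for the duality.
-/

namespace Pool.Agent.MP_a57f33_nt.Tri

set_option linter.unusedSectionVars false

open Pool.Agent.MP_a57f33_nt.Cyc

section phi

variable {S : Type*} [Ring S]

lemma phi_rec (δ : S →+ S) (hmul : ∀ x y, δ (x * y) = δ x * y + x * δ y) (x : S)
    (φ G : ℕ → S) (h0 : φ 0 = 1) (hφ : ∀ i, φ (i + 1) = x * φ i + G i) (hG : ∀ i, δ (G i) = 0)
    (h1 : δ 1 = 0) (hx : δ x = 1) (i : ℕ) :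
    δ (φ i) = ∑ l ∈ Finset.range i, x ^ l * φ (i - 1 - l) := by
  induction i with
  | zero => rw [h0, h1]; simp
  | succ i ih =>
    rw [hφ, map_add, hmul, hG, hx, ih, Finset.sum_range_succ', Finset.mul_sum]
    have e : ∀ l ∈ Finset.range i, x * (x ^ l * φ (i - 1 - l)) =
        x ^ (l + 1) * φ (i + 1 - 1 - (l + 1)) := by
      intro l _
      rw [show i + 1 - 1 - (l + 1) = i - 1 - l by omega, pow_succ', mul_assoc]
    rw [Finset.sum_congr rfl e]
    simp only [one_mul, pow_zero, add_zero]
    rw [show i + 1 - 1 - 0 = i by omega, add_comm]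

end phi

section scalar

variable {k : Type*} [CommRing k] {K : Type*} [CommRing K] [Algebra k K] [Algebra ℚ K]

/-- Words in one dimensional representations. -/
lemma ser_scalar {D : List Bool → k} (hD : D [] = 0) (h0 : ∀ w, insK false w D = 0)
    (h1 : ∀ w, insK true w D = 0) (p q : K) (n : ℕ) : ser p q n D = 0 := by
  have h := ser_translate h0 h1 (m2 (0 : K) 0 0) (m2 (0 : K) 0 0) p q n
  have e : ∀ r : K, m2 (0 : K) 0 0 + r • (1 : Matrix (Fin 2) (Fin 2) K) = m2 r 0 r := by
    intro r
    ext i j
    fin_cases i <;> fin_cases j <;> simp [m2]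
  rw [e, e, ser_m2, ser_m2] at h
  rw [(m2_inj h).1]
  cases n with
  | zero => simp [ser, hD]
  | succ n => simp [ser]

/-- The coefficients `G_i` of the gauge family of size one. -/
noncomputable def phi1 (a : K) : ℕ → Polynomial K
  | 0 => 1
  | i + 1 => Polynomial.X * phi1 a i + (if i = 0 then - Polynomial.C a else 0)

lemma phi1_eval_self (a : K) (i : ℕ) : (phi1 a (i + 1)).eval a = 0 := by
  induction i with
  | zero => simp [phi1]
  | succ i ih => rw [phi1]; simp [ih]

lemma phi1_eval (a s : K) (i : ℕ) : (phi1 a (i + 1)).eval s = s ^ i * (s - a) := by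
  induction i with
  | zero => simp [phi1]; ring
  | succ i ih => rw [phi1]; simp [ih]; ring

/-- The relations of depth one on the words in the letters `y_m`, with right hand side. -/
def Rel (z : ℕ+ → k) (g : ℕ → k) (c : List ℕ+ → k) : Prop :=
  ∀ (m : ℕ+) (u : List ℕ+), so m u c = z m * c u - (if m = 1 then st g c u else 0)

lemma ys_phi1 {z : ℕ+ → k} {g : ℕ → k} {c : List ℕ+ → k} (hc : Rel z g c) (h0 : c [] = 0)
    (a : K) (n : ℕ) : ys (phi1 a) n c = 0 := by
  induction n using Nat.strong_induction_on with
  | _ n ih =>
    cases n with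
    | zero => rw [ys_zero, h0, zero_smul]
    | succ n =>
      have hk : ∀ r : k, (Polynomial.derivative (R := K)).toAddMonoidHom
          (r • (1 : Polynomial K)) = 0 := by
        intro r
        rw [Algebra.smul_def, Polynomial.algebraMap_apply]
        simp
      have hφ := phi_rec (Polynomial.derivative (R := K)).toAddMonoidHom
        (fun x y => by simp [Polynomial.derivative_mul]) Polynomial.X (phi1 a)
        (fun i => if i = 0 then - Polynomial.C a else 0) rfl (fun i => rfl)
        (fun i => by split_ifs <;> simp) (by simp) (by simp)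
      have h := ys_gauge (Polynomial.derivative (R := K)).toAddMonoidHom hk
        (fun x y => by simp [Polynomial.derivative_mul]) Polynomial.X
        (fun y => mul_comm _ _) (phi1 a) rfl hφ 1 (by simp) hc (n + 1)
        (fun m hm => by rw [ih m hm, zero_mul])
      rw [mul_one] at h
      have h' : Polynomial.derivative (ys (phi1 a) (n + 1) c) = 0 := h
      have h2 : ∀ s : K, (ys (phi1 a) (n + 1) c).eval s = 0 := by
        intro s
        rw [eval_of_derivative h' s a]
        have h3 := ys_map ((Polynomial.aeval a : Polynomial K →ₐ[K] K).restrictScalars k)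
          (phi1 a) (n + 1) c
        have h4 : ((Polynomial.aeval a : Polynomial K →ₐ[K] K).restrictScalars k)
            (ys (phi1 a) (n + 1) c) = (ys (phi1 a) (n + 1) c).eval a := by
          simp [Polynomial.coe_aeval_eq_eval]
        rw [h4] at h3
        rw [h3, ys_congr_phi (φ' := fun _ => 0)]
        · rw [ys_succ]; simp
        · intro i
          have := phi1_eval_self a i
          simpa [Polynomial.coe_aeval_eq_eval] using this
      ext i
      cases i with
      | zero =>
        have := h2 0
        rw [← Polynomial.coeff_zero_eq_eval_zero] at this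
        simpa using this
      | succ i =>
        have h5 := congrArg (fun Q => Polynomial.coeff Q i) h'
        simp only [Polynomial.coeff_derivative, Polynomial.coeff_zero] at h5
        rw [rat_cancel h5]; simp

/-- The first layer: words followed by `x₁`. -/
lemma layer1_true {D : List Bool → k} {z : ℕ+ → k} {g : ℕ → k}
    (hc : Rel z g (fun u => D (toX u))) (hD : D [] = 0) (p q : K) (n : ℕ) :
    ser p q n (fun t => D (t ++ [true])) = 0 := by
  have key : ∀ (K : Type _) [CommRing K] [Algebra k K] [Algebra ℚ K] (p q : K),
      ser p q n (fun t => D (t ++ [true])) * q = 0 := by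
    intro K _ _ _ p q
    have h := ys_phi1 (K := K) hc hD (p - q) (n + 1)
    have h3 := ys_map ((Polynomial.aeval p : Polynomial K →ₐ[K] K).restrictScalars k)
      (phi1 (p - q)) (n + 1) (fun u => D (toX u))
    rw [h, map_zero, ys_congr_phi (φ' := fun i => p ^ (i - 1) * q), ys_toX] at h3
    · exact h3.symm
    · intro i
      have := phi1_eval (p - q) p i
      simp only [AlgHom.coe_restrictScalars', Polynomial.coe_aeval_eq_eval]
      rw [this]
      simp
  have h1 := key (Polynomial K) (Polynomial.C p) Polynomial.X
  have h2 := (Polynomial.isRegular_X (R := K)).right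
  have h3 : ser (Polynomial.C p) Polynomial.X n (fun t => D (t ++ [true])) = 0 := by
    apply h2
    simpa using h1
  have h4 := ser_map ((Polynomial.aeval q : Polynomial K →ₐ[K] K).restrictScalars k)
    (Polynomial.C p) Polynomial.X n (fun t => D (t ++ [true]))
  rw [h3, map_zero] at h4
  simpa using h4.symm

/-- The first layer: words followed by `x₀`. -/
lemma layer1_false {D : List Bool → k} {z : ℕ+ → k} {g : ℕ → k}
    (hc : Rel z g (fun u => D (toX u))) (hD : D [] = 0) (h0 : ∀ w, insK false w D = 0)
    (h1 : ∀ w, insK true w D = 0) (p q : K) (n : ℕ) :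
    ser p q n (fun t => D (t ++ [false])) = 0 := by
  have key : ∀ (K : Type _) [CommRing K] [Algebra k K] [Algebra ℚ K] (p q : K),
      ser p q n (fun t => D (t ++ [false])) * p = 0 := by
    intro K _ _ _ p q
    have h := ser_snoc p q n D
    rw [ser_scalar hD h0 h1, layer1_true hc hD, zero_mul, add_zero] at h
    exact h.symm
  have h1 := key (Polynomial K) Polynomial.X (Polynomial.C q)
  have h2 := (Polynomial.isRegular_X (R := K)).right
  have h3 : ser Polynomial.X (Polynomial.C q) n (fun t => D (t ++ [false])) = 0 := by
    apply h2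
    simpa using h1
  have h4 := ser_map ((Polynomial.aeval p : Polynomial K →ₐ[K] K).restrictScalars k)
    Polynomial.X (Polynomial.C q) n (fun t => D (t ++ [false]))
  rw [h3, map_zero] at h4
  simpa using h4.symm

end scalar

end Pool.Agent.MP_a57f33_nt.Tri
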