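import Pool.Agent.Lib.MP_a57f33_nt.Tri.Layer

/-!
The vanishing of the second layer.
-/

namespace Pool.Agent.MP_a57f33_nt.Tri

set_option linter.unusedSectionVars false

open Pool.Agent.MP_a57f33_nt.Cyc

section gauge

variable {k : Type*} [CommRing k] {K : Type*} [CommRing K] [Algebra k K] [Algebra ℚ K]

/-- The constant terms of the gauge family of size two. -/
noncomputable def gauG (p0 a0 p1 a1 : K) : ℕ → Matrix (Fin 2) (Fin 2) (Polynomial K)
  | 0 => m2 (Polynomial.C (- a0)) (Polynomial.C 1) (Polynomial.C (p1 - a1 - p0))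
  | i + 1 => m2 (Polynomial.C 0) (Polynomial.C 0) (Polynomial.C ((p1 - a1) * (p1 - p0) * p1 ^ i))

/-- The gauge family of size two. -/
noncomputable def phi2 (p0 a0 p1 a1 : K) : ℕ → Matrix (Fin 2) (Fin 2) (Polynomial K)
  | 0 => 1
  | i + 1 => m2 Polynomial.X 0 Polynomial.X * phi2 p0 a0 p1 a1 i + gauG p0 a0 p1 a1 i

lemma evM_m2 (s : K) (a b c : Polynomial K) :
    evM k s (m2 a b c) = m2 (a.eval s) (b.eval s) (c.eval s) := by
  ext i j
  rw [evM_apply]
  fin_cases i <;> fin_cases j <;> simp [m2]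

lemma dM_m2 (a b c : Polynomial K) :
    dM (m2 a b c) = m2 (Polynomial.derivative a) (Polynomial.derivative b)
      (Polynomial.derivative c) := by
  ext1 i j
  rw [dM_apply]
  fin_cases i <;> fin_cases j <;> simp [m2]

lemma one_eq_m2 : (1 : Matrix (Fin 2) (Fin 2) K) = m2 1 0 1 := by
  ext i j
  fin_cases i <;> fin_cases j <;> simp [m2]

lemma m2_pow_mul (p0 p1 q0 q1 : K) (i : ℕ) :
    (m2 p0 0 p1) ^ i * m2 q0 1 q1 = m2 (p0 ^ i * q0) (p0 ^ i) (p1 ^ i * q1) := by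
  have h : ∀ i : ℕ, (m2 p0 0 p1) ^ i = m2 (p0 ^ i) 0 (p1 ^ i) := by
    intro i
    induction i with
    | zero => rw [pow_zero, pow_zero, pow_zero, one_eq_m2]
    | succ i ih => rw [pow_succ, ih, m2_mul, pow_succ, pow_succ]; simp
  rw [h, m2_mul]; simp

lemma phi2_eval_left (p0 a0 p1 a1 : K) (i : ℕ) : evM k p0 (phi2 p0 a0 p1 a1 (i + 1)) =
    m2 (p0 ^ i * (p0 - a0)) (p0 ^ i) (p1 ^ i * (p1 - a1)) := by
  induction i with
  | zero =>
    rw [phi2, phi2, mul_one, map_add, gauG, evM_m2, evM_m2, m2_add]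
    simp
    congr 1 <;> ring
  | succ i ih =>
    rw [phi2, map_add, map_mul, ih, gauG, evM_m2, evM_m2, m2_mul, m2_add]
    simp
    congr 1 <;> ring

lemma phi2_eval_right (p0 a0 p1 a1 : K) (i : ℕ) : evM k a1 (phi2 p0 a0 p1 a1 (i + 1)) =
    m2 (a1 ^ i * (a1 - a0)) (a1 ^ i) (p1 ^ i * (p1 - p0)) := by
  induction i with
  | zero =>
    rw [phi2, phi2, mul_one, map_add, gauG, evM_m2, evM_m2, m2_add]
    simp
    congr 1 <;> ring
  | succ i ih =>
    rw [phi2, map_add, map_mul, ih, gauG, evM_m2, evM_m2, m2_mul, m2_add]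
    simp
    congr 1 <;> ring

lemma ys_phi2_left (D : List Bool → k) (p0 a0 p1 a1 : K) (n : ℕ) :
    evM k p0 (ys (phi2 p0 a0 p1 a1) (n + 1) (fun u => D (toX u)) * m2 0 0 1) =
      m2 0 (ser p0 (p0 - a0) n (fun t => D (t ++ [true])) +
        x2 p0 (p0 - a0) p1 (p1 - a1) 0 1 n (fun t => D (t ++ [true])) * (p1 - a1))
        (ser p1 (p1 - a1) n (fun t => D (t ++ [true])) * (p1 - a1)) := by
  rw [map_mul, ys_map, ys_congr_phi (φ' := fun i => (m2 p0 0 p1) ^ (i - 1) *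
    m2 (p0 - a0) 1 (p1 - a1)), ys_toX, ser_m2, evM_m2, m2_mul, m2_mul]
  · simp
  · intro i
    rw [phi2_eval_left, Nat.add_sub_cancel, m2_pow_mul]

lemma ys_phi2_right (D : List Bool → k) (p0 a0 p1 a1 : K) (n : ℕ) :
    evM k a1 (ys (phi2 p0 a0 p1 a1) (n + 1) (fun u => D (toX u)) * m2 0 0 1) =
      m2 0 (ser a1 (a1 - a0) n (fun t => D (t ++ [true])) +
        x2 a1 (a1 - a0) p1 (p1 - p0) 0 1 n (fun t => D (t ++ [true])) * (p1 - p0))
        (ser p1 (p1 - p0) n (fun t => D (t ++ [true])) * (p1 - p0)) := by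
  rw [map_mul, ys_map, ys_congr_phi (φ' := fun i => (m2 a1 0 p1) ^ (i - 1) *
    m2 (a1 - a0) 1 (p1 - p0)), ys_toX, ser_m2, evM_m2, m2_mul, m2_mul]
  · simp
  · intro i
    rw [phi2_eval_right, Nat.add_sub_cancel, m2_pow_mul]

lemma poly_zero {P : Polynomial K} (h : Polynomial.derivative P = 0) (s : K)
    (hs : P.eval s = 0) : P = 0 := by
  ext i
  cases i with
  | zero =>
    have := eval_of_derivative h 0 s
    rw [hs, ← Polynomial.coeff_zero_eq_eval_zero] at this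
    simpa using this
  | succ i =>
    have h5 := congrArg (fun Q => Polynomial.coeff Q i) h
    simp only [Polynomial.coeff_derivative, Polynomial.coeff_zero] at h5
    rw [rat_cancel h5]; simp

/-- The transposition symmetry of the second layer. -/
lemma gauge_key {D : List Bool → k} {z : ℕ+ → k} {g : ℕ → k}
    (hc : Rel z g (fun u => D (toX u))) (hD : D [] = 0) (n : ℕ)
    (hlow : ∀ m < n, ∀ p0 q0 p1 q1 : K, x2 p0 q0 p1 q1 0 1 m (fun t => D (t ++ [true])) = 0)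
    (p0 a0 p1 a1 : K) :
    x2 p0 (p0 - a0) p1 (p1 - a1) 0 1 n (fun t => D (t ++ [true])) * (p1 - a1) =
      x2 a1 (a1 - a0) p1 (p1 - p0) 0 1 n (fun t => D (t ++ [true])) * (p1 - p0) := by
  have hX : ∀ y : Matrix (Fin 2) (Fin 2) (Polynomial K),
      m2 Polynomial.X 0 Polynomial.X * y = y * m2 Polynomial.X 0 Polynomial.X := by
    intro y
    have : (m2 Polynomial.X 0 Polynomial.X : Matrix (Fin 2) (Fin 2) (Polynomial K)) =
        (Polynomial.X : Polynomial K) • 1 := by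
      ext i j
      fin_cases i <;> fin_cases j <;> simp [m2]
    rw [this, smul_mul_assoc, mul_smul_comm, one_mul, mul_one]
  have h1 : dM (1 : Matrix (Fin 2) (Fin 2) (Polynomial K)) = 0 := by
    have := dM_smul_one (k := k) (K := K) (ι := Fin 2) 1
    rwa [one_smul] at this
  have hG : ∀ i, dM (gauG p0 a0 p1 a1 i) = 0 := by
    intro i
    have e0 : (0 : Matrix (Fin 2) (Fin 2) (Polynomial K)) = m2 0 0 0 := by
      ext i j
      fin_cases i <;> fin_cases j <;> simp [m2]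
    cases i with
    | zero => rw [gauG, dM_m2, e0]; simp
    | succ i => rw [gauG, dM_m2, e0]; simp only [Polynomial.derivative_C]
  have hXd : dM (m2 Polynomial.X 0 Polynomial.X : Matrix (Fin 2) (Fin 2) (Polynomial K)) = 1 := by
    rw [dM_m2, one_eq_m2]; simp
  have hφ := phi_rec dM dM_mul (m2 Polynomial.X 0 Polynomial.X) (phi2 p0 a0 p1 a1)
    (gauG p0 a0 p1 a1) rfl (fun i => rfl) hG h1 hXd
  have he : dM (m2 0 0 1 : Matrix (Fin 2) (Fin 2) (Polynomial K)) = 0 := by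
    rw [dM_m2]
    ext i j
    fin_cases i <;> fin_cases j <;> simp [m2]
  have hz : ∀ m ≤ n, ys (phi2 p0 a0 p1 a1) m (fun u => D (toX u)) * m2 0 0 1 = 0 := by
    intro m
    induction m using Nat.strong_induction_on with
    | _ m ih =>
      intro hm
      have hd := ys_gauge dM dM_smul_one dM_mul _ hX (phi2 p0 a0 p1 a1) rfl hφ (m2 0 0 1) he hc m
        (fun j hj => ih j hj (by omega))
      have hev : evM k p0 (ys (phi2 p0 a0 p1 a1) m (fun u => D (toX u)) * m2 0 0 1) = 0 := by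
        cases m with
        | zero =>
          rw [ys_zero]
          have : D (toX []) = 0 := hD
          rw [this, zero_smul, zero_mul, map_zero]
        | succ m =>
          rw [ys_phi2_left, layer1_true hc hD, layer1_true hc hD, hlow m (by omega)]
          ext i j
          fin_cases i <;> fin_cases j <;> simp [m2]
      ext1 i j
      refine poly_zero ?_ p0 ?_
      · rw [← dM_apply, hd]; rfl
      · rw [← evM_apply (k := k), hev]; rfl
  have hd := ys_gauge dM dM_smul_one dM_mul _ hX (phi2 p0 a0 p1 a1) rfl hφ (m2 0 0 1) he hc (n + 1)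
    (fun j hj => hz j (by omega))
  have h2 : evM k p0 (ys (phi2 p0 a0 p1 a1) (n + 1) (fun u => D (toX u)) * m2 0 0 1) =
      evM k a1 (ys (phi2 p0 a0 p1 a1) (n + 1) (fun u => D (toX u)) * m2 0 0 1) := by
    ext1 i j
    rw [evM_apply, evM_apply]
    refine eval_of_derivative ?_ _ _
    rw [← dM_apply, hd]
    rfl
  rw [ys_phi2_left, ys_phi2_right] at h2
  have h3 := (m2_inj h2).2.1
  rwa [layer1_true hc hD, layer1_true hc hD, zero_add, zero_add] at h3

end gauge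

section flip

variable {k : Type*} [CommRing k] {K : Type*} [CommRing K] [Algebra k K]

/-- The anti-transpose. -/
def flip3 (M : Matrix (Fin 3) (Fin 3) K) : Matrix (Fin 3) (Fin 3) K :=
  M.transpose.submatrix Fin.rev Fin.rev

lemma flip3_m3 (a b c d e f : K) : flip3 (m3 a b c d e f) = m3 f e c d b a := by
  ext i j
  fin_cases i <;> fin_cases j <;> simp [m3, flip3, Fin.rev]

lemma flip3_mul (M N : Matrix (Fin 3) (Fin 3) K) : flip3 (M * N) = flip3 N * flip3 M := by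
  unfold flip3
  rw [Matrix.transpose_mul]
  ext i j
  simp only [Matrix.submatrix_apply, Matrix.mul_apply, Fin.sum_univ_three]
  simp [Fin.rev]
  ring

lemma flip3_add (M N : Matrix (Fin 3) (Fin 3) K) : flip3 (M + N) = flip3 M + flip3 N := by
  ext i j
  simp [flip3]

lemma flip3_smul_one (r : k) : flip3 (r • (1 : Matrix (Fin 3) (Fin 3) K)) = r • 1 := by
  rw [smul_one_m3, flip3_m3]

lemma ser_flip (A B : Matrix (Fin 3) (Fin 3) K) (n : ℕ) : ∀ c : List Bool → k,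
    flip3 (ser A B n (fun t => c t.reverse)) = ser (flip3 A) (flip3 B) n c := by
  induction n with
  | zero => intro c; simp only [ser, List.reverse_nil, flip3_smul_one]
  | succ n ih =>
    intro c
    rw [ser_snoc (flip3 A)]
    rw [← ih (fun t => c (t ++ [false])), ← ih (fun t => c (t ++ [true]))]
    rw [ser, flip3_add, flip3_mul, flip3_mul]
    simp only [List.reverse_cons]

lemma x3_flip (p0 q0 s1 r1 s' r' p1 q1 s2 r2 p2 q2 : K) (n : ℕ) (c : List Bool → k) :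
    x3 p0 q0 s1 r1 s' r' p1 q1 s2 r2 p2 q2 n (fun t => c t.reverse) =
      x3 p2 q2 s2 r2 s' r' p1 q1 s1 r1 p0 q0 n c := by
  have h := ser_flip (m3 p0 s1 s' p1 s2 p2) (m3 q0 r1 r' q1 r2 q2) n c
  rw [ser_m3, flip3_m3, flip3_m3, flip3_m3, ser_m3] at h
  exact (m3_inj h).2.2.1

lemma x3_dual (p0 q0 s1 r1 s' r' p1 q1 s2 r2 p2 q2 : K) (n : ℕ) (c : List Bool → k) :
    x3 p0 q0 s1 r1 s' r' p1 q1 s2 r2 p2 q2 n (fun t => c (dualWord t)) =
      x3 q2 p2 r2 s2 r' s' q1 p1 r1 s1 q0 p0 n c := by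
  have h := ser_swap (m3 p0 s1 s' p1 s2 p2) (m3 q0 r1 r' q1 r2 q2) n
    (fun t => c t.reverse)
  rw [ser_m3, ser_m3] at h
  have h1 := (m3_inj h).2.2.1
  have h2 := x3_flip q0 p0 r1 s1 r' s' q1 p1 r2 s2 q2 p2 n c
  rw [← h2]
  exact h1

lemma x3_neg (p0 q0 s1 r1 s' r' p1 q1 s2 r2 p2 q2 : K) (n : ℕ) (c : List Bool → k) :
    x3 (-p0) (-q0) s1 r1 (-s') (-r') (-p1) (-q1) s2 r2 (-p2) (-q2) n c =
      (-1) ^ n * x3 p0 q0 s1 r1 s' r' p1 q1 s2 r2 p2 q2 n c := by
  have h := ser_scale (m3 p0 s1 s' p1 s2 p2) (m3 q0 r1 r' q1 r2 q2) n c (-1)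
  have e1 : ∀ a b c d e f : K, (-1 : k) • m3 a b c d e f = m3 (-a) (-b) (-c) (-d) (-e) (-f) := by
    intro a b c d e f
    ext i j
    fin_cases i <;> fin_cases j <;> simp [m3]
  rw [e1, e1, ser_m3, ser_m3] at h
  have e2 : ∀ (r : k) (a b c d e f : K), r • m3 a b c d e f =
      m3 (r • a) (r • b) (r • c) (r • d) (r • e) (r • f) := by
    intro r a b c d e f
    ext i j
    fin_cases i <;> fin_cases j <;> simp [m3]
  rw [e2] at h
  have h1 := (m3_inj h).2.2.1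
  have h2 : ((-1 : k) ^ n) • x3 p0 q0 s1 r1 s' r' p1 q1 s2 r2 p2 q2 n c =
      (-1) ^ n * x3 p0 q0 s1 r1 s' r' p1 q1 s2 r2 p2 q2 n c := by
    rw [Algebra.smul_def]; simp
  rw [h2] at h1
  rw [← h1]
  -- conjugation by diag(1, -1, 1)
  have hI : ∀ a b c d e f : K, m3 (-a) (-b) (-c) (-d) (-e) (-f) * m3 1 0 0 (-1) 0 1 =
      m3 1 0 0 (-1) 0 1 * m3 (-a) b (-c) (-d) e (-f) := by
    intro a b c d e f
    rw [m3_mul, m3_mul]
    simp
  have h3 := ser_inter (k := k) (hI p0 s1 s' p1 s2 p2) (hI q0 r1 r' q1 r2 q2) n c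
  rw [ser_m3, ser_m3, m3_mul, m3_mul] at h3
  have h4 := (m3_inj h3).2.2.1
  simp at h4
  exact h4.symm

end flip

section translate3

variable {k : Type*} [CommRing k] {K : Type*} [CommRing K] [Algebra k K] [Algebra ℚ K]

lemma x3_translate {D : List Bool → k} (h0 : ∀ w, insK false w D = 0)
    (h1 : ∀ w, insK true w D = 0) (p0 q0 s1 r1 s' r' p1 q1 s2 r2 p2 q2 p q : K) (n : ℕ) :
    x3 (p0 + p) (q0 + q) s1 r1 s' r' (p1 + p) (q1 + q) s2 r2 (p2 + p) (q2 + q) n D =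
      x3 p0 q0 s1 r1 s' r' p1 q1 s2 r2 p2 q2 n D := by
  have h := ser_translate h0 h1 (m3 p0 s1 s' p1 s2 p2) (m3 q0 r1 r' q1 r2 q2) p q n
  have e : ∀ a b c d e f r : K, m3 a b c d e f + r • (1 : Matrix (Fin 3) (Fin 3) K) =
      m3 (a + r) b c (d + r) e (f + r) := by
    intro a b c d e f r
    ext i j
    fin_cases i <;> fin_cases j <;> simp [m3]
  rw [e, e, ser_m3, ser_m3] at h
  exact (m3_inj h).2.2.1

lemma x2_translate {D : List Bool → k} (h0 : ∀ w, insK false w D = 0)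
    (h1 : ∀ w, insK true w D = 0) (p0 q0 p1 q1 s r p q : K) (n : ℕ) :
    x2 (p0 + p) (q0 + q) (p1 + p) (q1 + q) s r n D = x2 p0 q0 p1 q1 s r n D := by
  have h := ser_translate h0 h1 (m2 p0 s p1) (m2 q0 r q1) p q n
  have e : ∀ a b c r : K, m2 a b c + r • (1 : Matrix (Fin 2) (Fin 2) K) =
      m2 (a + r) b (c + r) := by
    intro a b c r
    ext i j
    fin_cases i <;> fin_cases j <;> simp [m2]
  rw [e, e, ser_m2, ser_m2] at h
  exact (m2_inj h).2.1

/-- The first layer. -/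
lemma layer1 {D : List Bool → k} {z : ℕ+ → k} {g : ℕ → k}
    (hc : Rel z g (fun u => D (toX u))) (hD : D [] = 0) (h0 : ∀ w, insK false w D = 0)
    (h1 : ∀ w, insK true w D = 0) (p0 q0 p1 q1 s r : K) (n : ℕ) :
    x2 p0 q0 p1 q1 s r n D = 0 := by
  cases n with
  | zero => rfl
  | succ n =>
    have h := x2_translate h0 h1 p0 q0 p1 q1 s r (-p1) (-q1) (n + 1)
    rw [← h, x2_snoc, layer1_true hc hD, layer1_false hc hD h0 h1]
    simp

/-- The matrix entry of weight `n + 1` with `x₀ ↦ diag(a₁ + a₂, a₂, 0)` and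
`x₁ ↦ diag(b₁ + b₂, b₂, 0)` plus ones above the diagonal. -/
def TT (D : List Bool → k) (n : ℕ) (a1 b1 a2 b2 : K) : K :=
  x2 (a1 + a2) (b1 + b2) a2 b2 0 1 n (fun t => D (t ++ [true]))

/-- The same with the ones above the diagonal in the image of `x₀`. -/
def T0 (D : List Bool → k) (n : ℕ) (a1 b1 a2 b2 : K) : K :=
  x2 (a1 + a2) (b1 + b2) a2 b2 1 0 n (fun t => D (t ++ [false]))

section main

variable {D : List Bool → k} {z : ℕ+ → k} {g : ℕ → k}
    (hc : Rel z g (fun u => D (toX u))) (hD : D [] = 0) (h0 : ∀ w, insK false w D = 0)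
    (h1 : ∀ w, insK true w D = 0) (hdual : ∀ w, D (dualWord w) = - D w)
    (hant : ∀ (K : Type) [CommRing K] [Algebra k K] [Algebra ℚ K],
      ∀ (p0 q0 s1 r1 s' r' p1 q1 s2 r2 p2 q2 : K) (n : ℕ),
      x3 p0 q0 s1 r1 s' r' p1 q1 s2 r2 p2 q2 n (ant D) =
        - x3 p0 q0 s1 r1 s' r' p1 q1 s2 r2 p2 q2 n D)

include hc hD

lemma TT_eq (n : ℕ) (a1 b1 a2 b2 : K) :
    x3 (a1 + a2) (b1 + b2) 0 1 0 0 a2 b2 0 1 0 0 (n + 1) D = TT D n a1 b1 a2 b2 := by
  rw [x3_snoc, TT]; simp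

lemma T0_eq (n : ℕ) (a1 b1 a2 b2 : K) :
    x3 (a1 + a2) (b1 + b2) 1 0 0 0 a2 b2 1 0 0 0 (n + 1) D = T0 D n a1 b1 a2 b2 := by
  rw [x3_snoc, T0]; simp

lemma TT_gauge (n : ℕ)
    (hlow : ∀ m < n, ∀ p0 q0 p1 q1 : K, x2 p0 q0 p1 q1 0 1 m (fun t => D (t ++ [true])) = 0)
    (a1 b1 a2 b2 : K) :
    b2 * TT D n a1 b1 a2 b2 = - a1 * TT D n (-b2) b1 a2 (-a1) := by
  have h := gauge_key hc hD n hlow (a1 + a2) (a1 + a2 - (b1 + b2)) a2 (a2 - b2)
  unfold TT
  have e1 : a1 + a2 - (a1 + a2 - (b1 + b2)) = b1 + b2 := by ring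
  have e2 : a2 - (a2 - b2) = b2 := by ring
  have e3 : a2 - b2 - (a1 + a2 - (b1 + b2)) = b1 + (-a1) := by ring
  have e4 : a2 - (a1 + a2) = -a1 := by ring
  have e5 : a2 - b2 = -b2 + a2 := by ring
  rw [e1, e2, e3, e4, e5] at h
  linear_combination h

end main

end translate3

end Pool.Agent.MP_a57f33_nt.Tri
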