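import Pool.Agent.Lib.MP_a57f33_nt.Tri.Layer2

/-!
The vanishing of the second layer: conclusion.
-/

namespace Pool.Agent.MP_a57f33_nt.Tri

set_option linter.unusedSectionVars false

open Pool.Agent.MP_a57f33_nt.Cyc

section ant

variable {k : Type*} [CommRing k] {K : Type*} [CommRing K] [Algebra k K]

lemma x3_ant (p0 q0 s1 r1 s' r' p1 q1 s2 r2 p2 q2 : K) (n : ℕ) (c : List Bool → k) :
    x3 p0 q0 s1 r1 s' r' p1 q1 s2 r2 p2 q2 n (ant c) =
      (-1) ^ n * x3 p2 q2 s2 r2 s' r' p1 q1 s1 r1 p0 q0 n c := by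
  have h1 : ser (m3 p0 s1 s' p1 s2 p2) (m3 q0 r1 r' q1 r2 q2) n (ant c) =
      ((-1 : k) ^ n) • ser (m3 p0 s1 s' p1 s2 p2) (m3 q0 r1 r' q1 r2 q2) n
        (fun t => c t.reverse) := by
    rw [← ser_smul]
    apply ser_congr
    intro t ht
    rw [ant, ht]
  have e2 : ∀ (r : k) (a b c d e f : K), r • m3 a b c d e f =
      m3 (r • a) (r • b) (r • c) (r • d) (r • e) (r • f) := by
    intro r a b c d e f
    ext i j
    fin_cases i <;> fin_cases j <;> simp [m3]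
  rw [ser_m3, ser_m3, e2] at h1
  rw [(m3_inj h1).2.2.1, x3_flip, Algebra.smul_def]
  simp

lemma x2_ant_aux (p0 q0 p1 q1 s r : K) (n : ℕ) (c : List Bool → k)
    (h : ∀ p0 q0 p1 q1 s r : K, x2 p0 q0 p1 q1 s r n c = 0) :
    x2 p0 q0 p1 q1 s r n (ant c) = 0 := by
  have h1 : ser (m3 p0 s 0 p1 0 0) (m3 q0 r 0 q1 0 0) n (ant c) =
      ((-1 : k) ^ n) • ser (m3 p0 s 0 p1 0 0) (m3 q0 r 0 q1 0 0) n
        (fun t => c t.reverse) := by
    rw [← ser_smul]
    apply ser_congr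
    intro t ht
    rw [ant, ht]
  have e2 : ∀ (r : k) (a b c d e f : K), r • m3 a b c d e f =
      m3 (r • a) (r • b) (r • c) (r • d) (r • e) (r • f) := by
    intro r a b c d e f
    ext i j
    fin_cases i <;> fin_cases j <;> simp [m3]
  have h2 := ser_flip (m3 p0 s 0 p1 0 0) (m3 q0 r 0 q1 0 0) n c
  rw [ser_m3, flip3_m3, flip3_m3, flip3_m3, ser_m3] at h2
  rw [ser_m3, ser_m3, e2] at h1
  rw [(m3_inj h1).2.1, (m3_inj h2).2.2.2.2.1, h, smul_zero]

end ant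

section rel

variable {k : Type*} [CommRing k] {K : Type*} [CommRing K] [Algebra k K] [Algebra ℚ K]
variable {D : List Bool → k} {z : ℕ+ → k} {g : ℕ → k}

lemma TT_swap (h0 : ∀ w, insK false w D = 0) (h1 : ∀ w, insK true w D = 0)
    (hant : ∀ (p0 q0 s1 r1 s' r' p1 q1 s2 r2 p2 q2 : K) (n : ℕ),
      x3 p0 q0 s1 r1 s' r' p1 q1 s2 r2 p2 q2 n (ant D) =
        - x3 p0 q0 s1 r1 s' r' p1 q1 s2 r2 p2 q2 n D)
    (n : ℕ) (a1 b1 a2 b2 : K) : TT D n a1 b1 a2 b2 = - TT D n a2 b2 a1 b1 := by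
  have hTT : ∀ a1 b1 a2 b2 : K,
      x3 (a1 + a2) (b1 + b2) 0 1 0 0 a2 b2 0 1 0 0 (n + 1) D = TT D n a1 b1 a2 b2 := by
    intro a1 b1 a2 b2
    rw [x3_snoc, TT]; simp
  have e1 := hant (a1 + a2) (b1 + b2) 0 1 0 0 a2 b2 0 1 0 0 (n + 1)
  rw [x3_ant, hTT, ← x3_neg] at e1
  have e2 := x3_translate h0 h1 (-0) (-0) 0 1 (-0) (-0) (-a2) (-b2) 0 1 (-(a1 + a2))
    (-(b1 + b2)) (a1 + a2) (b1 + b2) (n + 1)
  rw [e1] at e2
  have e3 := hTT a2 b2 a1 b1
  have f1 : -0 + (a1 + a2) = a2 + a1 := by ring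
  have f2 : -0 + (b1 + b2) = b2 + b1 := by ring
  have f3 : -a2 + (a1 + a2) = a1 := by ring
  have f4 : -b2 + (b1 + b2) = b1 := by ring
  have f5 : -(a1 + a2) + (a1 + a2) = 0 := by ring
  have f6 : -(b1 + b2) + (b1 + b2) = 0 := by ring
  rw [f1, f2, f3, f4, f5, f6, neg_zero, e3] at e2
  rw [e2, neg_neg]

lemma TT_dual (h0 : ∀ w, insK false w D = 0) (h1 : ∀ w, insK true w D = 0)
    (hdual : ∀ w, D (dualWord w) = - D w)
    (n : ℕ) (a1 b1 a2 b2 : K) : TT D n a1 b1 a2 b2 = - T0 D n (-b2) (-a2) (-b1) (-a1) := by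
  have hTT : x3 (a1 + a2) (b1 + b2) 0 1 0 0 a2 b2 0 1 0 0 (n + 1) D = TT D n a1 b1 a2 b2 := by
    rw [x3_snoc, TT]; simp
  have hT0 : ∀ a1 b1 a2 b2 : K,
      x3 (a1 + a2) (b1 + b2) 1 0 0 0 a2 b2 1 0 0 0 (n + 1) D = T0 D n a1 b1 a2 b2 := by
    intro a1 b1 a2 b2
    rw [x3_snoc, T0]; simp
  have e0 : (fun t => D (dualWord t)) = fun t => - D t := by funext t; exact hdual t
  have e1 := x3_dual (a1 + a2) (b1 + b2) 0 1 0 0 a2 b2 0 1 0 0 (n + 1) D
  have e4 : x3 (a1 + a2) (b1 + b2) 0 1 0 0 a2 b2 0 1 0 0 (n + 1) (fun t => - D t) =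
      - x3 (a1 + a2) (b1 + b2) 0 1 0 0 a2 b2 0 1 0 0 (n + 1) D := by
    have h := ser_neg (m3 (a1 + a2) 0 0 a2 0 0) (m3 (b1 + b2) 1 0 b2 1 0) (n + 1) D
    have f : ∀ a b c d e f : K, - m3 a b c d e f = m3 (-a) (-b) (-c) (-d) (-e) (-f) := by
      intro a b c d e f
      ext i j
      fin_cases i <;> fin_cases j <;> simp [m3]
    rw [ser_m3, ser_m3, f] at h
    exact (m3_inj h).2.2.1
  rw [e0, e4, hTT] at e1
  have e2 := x3_translate h0 h1 0 0 1 0 0 0 b2 a2 1 0 (b1 + b2) (a1 + a2) (-(b1 + b2))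
    (-(a1 + a2)) (n + 1)
  have e3 := hT0 (-b2) (-a2) (-b1) (-a1)
  have f1 : 0 + -(b1 + b2) = -b2 + -b1 := by ring
  have f2 : 0 + -(a1 + a2) = -a2 + -a1 := by ring
  have f3 : b2 + -(b1 + b2) = -b1 := by ring
  have f4 : a2 + -(a1 + a2) = -a1 := by ring
  have f5 : b1 + b2 + -(b1 + b2) = 0 := by ring
  have f6 : a1 + a2 + -(a1 + a2) = 0 := by ring
  rw [f1, f2, f3, f4, f5, f6, e3] at e2
  rw [e2, ← e1, neg_neg]

end rel

section main

variable {k : Type} [CommRing k]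
variable {D : List Bool → k} {z : ℕ+ → k} {g : ℕ → k}

/-- The second layer. -/
theorem layer2 (hc : Rel z g (fun u => D (toX u))) (hD : D [] = 0)
    (h0 : ∀ w, insK false w D = 0) (h1 : ∀ w, insK true w D = 0)
    (hdual : ∀ w, D (dualWord w) = - D w)
    (hant : ∀ (K : Type) [CommRing K] [Algebra k K] [Algebra ℚ K],
      ∀ (p0 q0 s1 r1 s' r' p1 q1 s2 r2 p2 q2 : K) (n : ℕ),
      x3 p0 q0 s1 r1 s' r' p1 q1 s2 r2 p2 q2 n (ant D) =
        - x3 p0 q0 s1 r1 s' r' p1 q1 s2 r2 p2 q2 n D) (n : ℕ) :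
    ∀ (K : Type) [CommRing K] [Algebra k K] [Algebra ℚ K], ∀ (p0 q0 p1 q1 s r : K) (b : Bool),
      x2 p0 q0 p1 q1 s r n (fun t => D (t ++ [b])) = 0 := by
  induction n using Nat.strong_induction_on with
  | _ n ih =>
    intro K _ _ _
    -- relations over every ring
    have hser : ∀ (L : Type) [CommRing L] [Algebra k L] [Algebra ℚ L], ∀ (p q : L) (b : Bool),
        ser p q n (fun t => D (t ++ [b])) = 0 := by
      intro L _ _ _ p q b
      cases b with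
      | false => exact layer1_false hc hD h0 h1 p q n
      | true => exact layer1_true hc hD p q n
    have hC2 : ∀ (L : Type) [CommRing L] [Algebra k L] [Algebra ℚ L],
        ∀ (a1 b1 a2 b2 : L) (b : Bool),
        a1 * x2 (a1 + a2) (b1 + b2) a2 b2 1 0 n (fun t => D (t ++ [b])) +
          b1 * x2 (a1 + a2) (b1 + b2) a2 b2 0 1 n (fun t => D (t ++ [b])) = 0 := by
      intro L _ _ _ a1 b1 a2 b2 b
      rw [← x2_linear]
      have h := x2_inner (a1 + a2) (b1 + b2) a2 b2 n (fun t => D (t ++ [b]))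
      rw [hser, hser, add_sub_cancel_right, add_sub_cancel_right, sub_zero] at h
      exact h
    have hC3 : ∀ (L : Type) [CommRing L] [Algebra k L] [Algebra ℚ L],
        ∀ (a1 b1 a2 b2 s r : L),
        x2 (a1 + a2) (b1 + b2) a2 b2 s r n (fun t => D (t ++ [false])) * a2 +
          x2 (a1 + a2) (b1 + b2) a2 b2 s r n (fun t => D (t ++ [true])) * b2 = 0 := by
      intro L _ _ _ a1 b1 a2 b2 s r
      have h := x2_snoc (a1 + a2) (b1 + b2) a2 b2 s r n D
      rw [hser, hser, layer1 hc hD h0 h1] at h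
      linear_combination -h
    have hT : ∀ (L : Type) [CommRing L] [Algebra k L] [Algebra ℚ L], ∀ (a1 b1 a2 b2 : L),
        (b1 * b2 * TT D n a1 b1 a2 b2) * ((1 : ℕ) + 1) = 0 := by
      intro L _ _ _ a1 b1 a2 b2
      have hlow : ∀ m < n, ∀ p0 q0 p1 q1 : L,
          x2 p0 q0 p1 q1 0 1 m (fun t => D (t ++ [true])) = 0 :=
        fun m hm p0 q0 p1 q1 => ih m hm L p0 q0 p1 q1 0 1 true
      have k1 := TT_gauge hc hD n hlow a1 b1 a2 b2
      have k2 := TT_gauge hc hD n hlow a2 (-a1) (-b2) b1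
      have s1 := TT_swap h0 h1 (hant L) n (-b2) b1 a2 (-a1)
      have s2 := TT_swap h0 h1 (hant L) n (-b2) (-a2) (-b1) (-a1)
      have d1 := TT_dual h0 h1 hdual n a1 b1 a2 b2
      have c1 : a1 * T0 D n a1 b1 a2 b2 + b1 *
          x2 (a1 + a2) (b1 + b2) a2 b2 0 1 n (fun t => D (t ++ [false])) = 0 :=
        hC2 L a1 b1 a2 b2 false
      have c1' := hC2 L (-b2) (-a2) (-b1) (-a1) false
      have c2' := hC3 L (-b2) (-a2) (-b1) (-a1) 0 1
      have c1'' : -b2 * T0 D n (-b2) (-a2) (-b1) (-a1) + -a2 *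
          x2 (-b2 + -b1) (-a2 + -a1) (-b1) (-a1) 0 1 n (fun t => D (t ++ [false])) = 0 := c1'
      have c2'' : x2 (-b2 + -b1) (-a2 + -a1) (-b1) (-a1) 0 1 n (fun t => D (t ++ [false])) *
          -b1 + TT D n (-b2) (-a2) (-b1) (-a1) * -a1 = 0 := c2'
      push_cast
      linear_combination b1 * k1 - a1 * b1 * s1 + a1 * k2 + b1 * b2 * d1 + b1 * c1'' - a2 * c2''
        - a1 * a2 * s2
    -- the generic point
    let L := MvPolynomial (Fin 4) K
    have rX : ∀ (i : Fin 4) (P : L), MvPolynomial.X i * P = 0 → P = 0 := by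
      intro i P h
      have := (MvPolynomial.isRegular_X (R := K) (n := i)).left
      apply this
      simpa using h
    have gT : TT D n (MvPolynomial.X 0 : L) (MvPolynomial.X 1) (MvPolynomial.X 2)
        (MvPolynomial.X 3) = 0 := by
      have h := rat_cancel (hT L (MvPolynomial.X 0) (MvPolynomial.X 1) (MvPolynomial.X 2)
        (MvPolynomial.X 3))
      rw [mul_assoc] at h
      exact rX _ _ (rX _ _ h)
    have g1t : x2 ((MvPolynomial.X 0 : L) + MvPolynomial.X 2)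
        (MvPolynomial.X 1 + MvPolynomial.X 3) (MvPolynomial.X 2) (MvPolynomial.X 3) 0 1 n
        (fun t => D (t ++ [true])) = 0 := gT
    have g0t : x2 ((MvPolynomial.X 0 : L) + MvPolynomial.X 2)
        (MvPolynomial.X 1 + MvPolynomial.X 3) (MvPolynomial.X 2) (MvPolynomial.X 3) 1 0 n
        (fun t => D (t ++ [true])) = 0 := by
      have h := hC2 L (MvPolynomial.X 0) (MvPolynomial.X 1) (MvPolynomial.X 2)
        (MvPolynomial.X 3) true
      rw [g1t, mul_zero, add_zero] at h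
      exact rX _ _ h
    have g1f : x2 ((MvPolynomial.X 0 : L) + MvPolynomial.X 2)
        (MvPolynomial.X 1 + MvPolynomial.X 3) (MvPolynomial.X 2) (MvPolynomial.X 3) 0 1 n
        (fun t => D (t ++ [false])) = 0 := by
      have h := hC3 L (MvPolynomial.X 0) (MvPolynomial.X 1) (MvPolynomial.X 2)
        (MvPolynomial.X 3) 0 1
      rw [g1t, zero_mul, add_zero, mul_comm] at h
      exact rX _ _ h
    have g0f : x2 ((MvPolynomial.X 0 : L) + MvPolynomial.X 2)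
        (MvPolynomial.X 1 + MvPolynomial.X 3) (MvPolynomial.X 2) (MvPolynomial.X 3) 1 0 n
        (fun t => D (t ++ [false])) = 0 := by
      have h := hC2 L (MvPolynomial.X 0) (MvPolynomial.X 1) (MvPolynomial.X 2)
        (MvPolynomial.X 3) false
      rw [g1f, mul_zero, add_zero] at h
      exact rX _ _ h
    -- specialisation
    have sp : ∀ (s r : K) (b : Bool) (s' r' : L),
        x2 ((MvPolynomial.X 0 : L) + MvPolynomial.X 2)
          (MvPolynomial.X 1 + MvPolynomial.X 3) (MvPolynomial.X 2) (MvPolynomial.X 3) s' r' n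
          (fun t => D (t ++ [b])) = 0 →
        (∀ f : L →ₐ[k] K, f s' = s ∧ f r' = r) → ∀ p0 q0 p1 q1 : K,
        x2 p0 q0 p1 q1 s r n (fun t => D (t ++ [b])) = 0 := by
      intro s r b s' r' h hf p0 q0 p1 q1
      have h2 := x2_map (((MvPolynomial.aeval ![p0 - p1, q0 - q1, p1, q1] :
        MvPolynomial (Fin 4) K →ₐ[K] K)).restrictScalars k)
        ((MvPolynomial.X 0 : L) + MvPolynomial.X 2)
        (MvPolynomial.X 1 + MvPolynomial.X 3) (MvPolynomial.X 2) (MvPolynomial.X 3) s' r' n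
          (fun t => D (t ++ [b]))
      rw [h, map_zero, (hf _).1, (hf _).2] at h2
      simp at h2
      exact h2.symm
    intro p0 q0 p1 q1 s r b
    rw [x2_linear]
    cases b with
    | false =>
      rw [sp 1 0 false 1 0 g0f (fun f => ⟨map_one f, map_zero f⟩),
        sp 0 1 false 0 1 g1f (fun f => ⟨map_zero f, map_one f⟩)]
      ring
    | true =>
      rw [sp 1 0 true 1 0 g0t (fun f => ⟨map_one f, map_zero f⟩),
        sp 0 1 true 0 1 g1t (fun f => ⟨map_zero f, map_one f⟩)]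
      ring

/-- All entries vanish. -/
theorem ser_m3_zero (hc : Rel z g (fun u => D (toX u))) (hD : D [] = 0)
    (h0 : ∀ w, insK false w D = 0) (h1 : ∀ w, insK true w D = 0)
    (hdual : ∀ w, D (dualWord w) = - D w)
    (hant : ∀ (K : Type) [CommRing K] [Algebra k K] [Algebra ℚ K],
      ∀ (p0 q0 s1 r1 s' r' p1 q1 s2 r2 p2 q2 : K) (n : ℕ),
      x3 p0 q0 s1 r1 s' r' p1 q1 s2 r2 p2 q2 n (ant D) =
        - x3 p0 q0 s1 r1 s' r' p1 q1 s2 r2 p2 q2 n D) (n : ℕ)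
    (K : Type) [CommRing K] [Algebra k K] [Algebra ℚ K]
    (p0 q0 s1 r1 s' r' p1 q1 s2 r2 p2 q2 : K) :
    ser (m3 p0 s1 s' p1 s2 p2) (m3 q0 r1 r' q1 r2 q2) n D = 0 := by
  have h02 : x3 p0 q0 s1 r1 s' r' p1 q1 s2 r2 p2 q2 n D = 0 := by
    cases n with
    | zero => rfl
    | succ n =>
      have h := x3_translate h0 h1 p0 q0 s1 r1 s' r' p1 q1 s2 r2 p2 q2 (-p2) (-q2) (n + 1)
      rw [← h, x3_snoc, layer1_true hc hD, layer1_false hc hD h0 h1,
        layer2 hc hD h0 h1 hdual hant n K, layer2 hc hD h0 h1 hdual hant n K]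
      simp
  rw [ser_m3, ser_scalar hD h0 h1, ser_scalar hD h0 h1, ser_scalar hD h0 h1,
    layer1 hc hD h0 h1, layer1 hc hD h0 h1, h02]
  ext i j
  fin_cases i <;> fin_cases j <;> simp [m3]

end main

end Pool.Agent.MP_a57f33_nt.Tri
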