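import Pool.Agent.Lib.MP_a57f33_nt.Tri.Inst
import Pool.Agent.Lib.MP_a57f33_nt.Tri.Cube
import Pool.Agent.Lib.MP_a57f33_nt.Hexagon

/-!
Duality and the hexagon relation modulo the cube of the commutator ideal.
-/

namespace Pool.Agent.MP_a57f33_nt.Tri

set_option linter.unusedSectionVars false

open Pool.Agent.MP_a57f33_nt.Cyc

section part

variable {k : Type} [CommRing k]

lemma part_eq (n : ℕ) : ∀ Z : List Bool → k,
    part n Z = ser (FreeAlgebra.ι k false) (FreeAlgebra.ι k true) n Z := by
  induction n with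
  | zero => intro Z; simp [part, ser]
  | succ n ih =>
    intro Z
    rw [ser, ← ih, ← ih]
    unfold part
    rw [← Equiv.sum_comp (Fin.consEquiv (fun _ : Fin (n + 1) => Bool)), Fintype.sum_prod_type,
      Fintype.sum_bool, add_comm, Finset.mul_sum, Finset.mul_sum]
    congr 1
    · refine Finset.sum_congr rfl fun w _ => ?_
      simp [Fin.consEquiv, List.ofFn_succ]
    · refine Finset.sum_congr rfl fun w _ => ?_
      simp [Fin.consEquiv, List.ofFn_succ]

/-- Duality modulo the cube of the commutator ideal, for the solutions of the regularised double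
shuffle relations. -/
theorem group_cube [Algebra ℚ k] {γ : ℕ → k} {Z : List Bool → k} (h : RegDS γ Z) (n : ℕ) :
    part n Z - part n (fun w => Z (dualWord w)) ∈ comCube k := by
  apply mem_cube
  rw [part_eq, part_eq, ← ser_sub, ser_map, gen_false, gen_true]
  exact group_m3 h _ _ _ _ _ _ _ _ _ _ _ _ _ n

end part

section lie

lemma ser_delta {S : Type*} [Ring S] [Algebra ℚ S] (A B : S) (w : List Bool) : ∀ n : ℕ,
    ser A B n (fun t => if w = t then (1 : ℚ) else 0) =
      if w.length = n then (w.map (fun b => cond b B A)).prod else 0 := by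
  induction w with
  | nil =>
    intro n
    cases n with
    | zero => simp [ser]
    | succ n =>
      have h := ser_zero (k := ℚ) A B n
      simp [ser, h]
  | cons b w ih =>
    intro n
    cases n with
    | zero => simp [ser]
    | succ n =>
      have h0 := ser_zero (k := ℚ) A B n
      rw [ser]
      cases b with
      | false =>
        have e1 : (fun t => if false :: w = false :: t then (1 : ℚ) else 0) =
            fun t => if w = t then (1 : ℚ) else 0 := by
          funext t; simp
        have e2 : (fun t => if false :: w = true :: t then (1 : ℚ) else 0) = fun _ => 0 := by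
          funext t; simp
        rw [e1, e2, ih, h0]
        simp
      | true =>
        have e1 : (fun t => if true :: w = true :: t then (1 : ℚ) else 0) =
            fun t => if w = t then (1 : ℚ) else 0 := by
          funext t; simp
        have e2 : (fun t => if true :: w = false :: t then (1 : ℚ) else 0) = fun _ => 0 := by
          funext t; simp
        rw [e1, e2, ih, h0]
        simp

lemma hom_word {S : Type*} [Ring S] [Algebra ℚ S] (φ : QX →ₐ[ℚ] S) (w : List Bool) :
    φ (word w) = (w.map (fun b => cond b (φ (FreeAlgebra.ι ℚ true))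
      (φ (FreeAlgebra.ι ℚ false)))).prod := by
  induction w with
  | nil => simp
  | cons b w ih => rw [word_cons, map_mul, ih]; cases b <;> simp

lemma hom_eq_sum {S : Type*} [Ring S] [Algebra ℚ S] (φ : QX →ₐ[ℚ] S) (f : QX) :
    ∃ N0, ∀ N, N0 ≤ N → φ f = ∑ n ∈ Finset.range N,
      ser (φ (FreeAlgebra.ι ℚ false)) (φ (FreeAlgebra.ι ℚ true)) n (coeff f) := by
  have hf := (FreeAlgebra.basisFreeMonoid ℚ Bool).mem_span f
  induction hf using Submodule.span_induction with
  | mem x h =>
    obtain ⟨w, rfl⟩ := h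
    have h1 := basis_apply (X := Bool) w.toList
    rw [FreeMonoid.ofList_toList] at h1
    rw [h1]
    refine ⟨w.toList.length + 1, fun N hN => ?_⟩
    have h2 : coeff (word w.toList) = fun t => if w.toList = t then (1 : ℚ) else 0 := by
      funext t; exact coeff_word _ _
    rw [h2]
    simp only [ser_delta]
    rw [Finset.sum_ite_eq, if_pos (Finset.mem_range.mpr (by omega)), hom_word]
  | zero =>
    refine ⟨0, fun N _ => ?_⟩
    have h2 : coeff (0 : QX) = fun _ => 0 := by funext t; exact coeff_zero _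
    rw [h2, map_zero]
    simp only [ser_zero]
    simp
  | add x y _ _ hx hy =>
    obtain ⟨N1, h1⟩ := hx
    obtain ⟨N2, h2⟩ := hy
    refine ⟨max N1 N2, fun N hN => ?_⟩
    have h3 : coeff (x + y) = fun t => coeff x t + coeff y t := by
      funext t; exact coeff_add _ _ _
    rw [h3, map_add, h1 N (le_trans (le_max_left _ _) hN), h2 N (le_trans (le_max_right _ _) hN),
      ← Finset.sum_add_distrib]
    refine Finset.sum_congr rfl fun n _ => ?_
    rw [ser_add]
  | smul r x _ hx =>
    obtain ⟨N1, h1⟩ := hx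
    refine ⟨N1, fun N hN => ?_⟩
    have h3 : coeff (r • x) = fun t => r * coeff x t := by
      funext t; exact coeff_smul _ _ _
    rw [h3, map_smul, h1 N hN, Finset.smul_sum]
    refine Finset.sum_congr rfl fun n _ => ?_
    rw [ser_smul]

/-- Duality modulo the cube of the commutator ideal, for the elements of `DS1`. -/
theorem lie_cube {ψ : QX} (h : ψ ∈ DS1) : ψ - dual ψ ∈ comCube ℚ := by
  apply mem_cube
  obtain ⟨N, hN⟩ := hom_eq_sum (gen (k := ℚ)) (ψ - dual ψ)
  rw [hN N le_rfl]
  refine Finset.sum_eq_zero fun n _ => ?_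
  have h2 : coeff (ψ - dual ψ) = fun w => coeff ψ w - coeff ψ (dualWord w) := by
    funext w; rw [coeff_sub, coeff_dual]
  rw [h2, gen_false, gen_true]
  exact lie_m3 h _ _ _ _ _ _ _ _ _ _ _ _ _ n

lemma cube_hom (φ : QX →ₐ[ℚ] QX) {x : QX} (hx : x ∈ comCube ℚ)
    (hφ : ∃ r : ℚ, φ (com ℚ) = r • com ℚ) : φ x ∈ comCube ℚ := by
  obtain ⟨r, hr⟩ := hφ
  unfold comCube at hx ⊢
  induction hx using Submodule.span_induction with
  | mem x h =>
    obtain ⟨a, b, d, e, rfl⟩ := h
    have : φ (a * com ℚ * b * com ℚ * d * com ℚ * e) =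
        (r * r * r) • (φ a * com ℚ * φ b * com ℚ * φ d * com ℚ * φ e) := by
      simp only [map_mul, hr, mul_smul_comm, smul_mul_assoc, smul_smul]
      congr 1
      ring
    rw [this]
    exact Submodule.smul_mem _ _ (Submodule.subset_span ⟨_, _, _, _, rfl⟩)
  | zero => rw [map_zero]; exact Submodule.zero_mem _
  | add x y _ _ hx hy => rw [map_add]; exact Submodule.add_mem _ hx hy
  | smul r x _ hx => rw [map_smul]; exact Submodule.smul_mem _ _ hx

lemma cube_mul_right (a : QX) {x : QX} (hx : x ∈ comCube ℚ) : x * a ∈ comCube ℚ := by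
  unfold comCube at hx ⊢
  induction hx using Submodule.span_induction with
  | mem x h =>
    obtain ⟨a', b, d, e, rfl⟩ := h
    exact Submodule.subset_span ⟨a', b, d, e * a, by noncomm_ring⟩
  | zero => rw [zero_mul]; exact Submodule.zero_mem _
  | add x y _ _ hx hy => rw [add_mul]; exact Submodule.add_mem _ hx hy
  | smul r x _ hx => rw [smul_mul_assoc]; exact Submodule.smul_mem _ _ hx

/-- The diagonal entries of a Lie element. -/
lemma gen_lie_diag {x : QX} (h : x ∈ LieX) (i : Fin 3) :
    gen x i i = coeff x [false] • gen X0 i i + coeff x [true] • gen X1 i i := by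
  refine lie_induction (P := fun x => gen x i i =
    coeff x [false] • gen X0 i i + coeff x [true] • gen X1 i i) ?_ ?_ ?_ ?_ ?_ h
  · intro b
    rw [coeff_iota, coeff_iota]
    cases b <;> simp
  · simp [coeff_zero]
  · intro x y hx hy
    rw [map_add, Matrix.add_apply, hx, hy, coeff_add, coeff_add, add_smul, add_smul]
    abel
  · intro r x hx
    rw [map_smul, Matrix.smul_apply, hx, coeff_smul, coeff_smul, smul_add, mul_smul, mul_smul]
  · intro x y hx' hy' _ _
    have h1 : ∀ b, coeff (x * y - y * x) [b] = 0 := by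
      intro b
      rw [coeff_sub, coeff_mul, coeff_mul]
      simp only [MP_a57f33_nt.conv, (lie_ins hx').1, (lie_ins hy').1]
      ring
    rw [h1, h1, zero_smul, zero_smul, add_zero]
    obtain ⟨a1, a2, a3, a4, a5, a6, ha⟩ := gen_upper x
    obtain ⟨b1, b2, b3, b4, b5, b6, hb⟩ := gen_upper y
    rw [map_sub, map_mul, map_mul, ha, hb, m3_mul, m3_mul]
    fin_cases i <;> simp [m3, Matrix.sub_apply] <;> ring

lemma cancel_quad {L F : MvPolynomial (Fin 6) ℚ}
    (hL : L ≠ 0) (h : L * F = 0) : F = 0 := by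
  rcases mul_eq_zero.mp h with h1 | h1
  · exact absurd h1 hL
  · exact h1

lemma quad_ne (i j i' j' : Fin 6) (h1 : i ≠ j) (h2 : i ≠ i') (h3 : i ≠ j') :
    ((MvPolynomial.X i - MvPolynomial.X j) - (MvPolynomial.X i' - MvPolynomial.X j') :
      MvPolynomial (Fin 6) ℚ) ≠ 0 := by
  intro h
  have := congrArg (MvPolynomial.eval (fun t => if t = i then (1 : ℚ) else 0)) h
  simp [h1.symm, h2.symm, h3.symm] at this

/-- A Lie element without linear part which commutes with `x₁ - x₀` modulo the cube lies in the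
cube. -/
lemma comm_cube {u : QX} (hu : u ∈ LieX) (h0 : coeff u [false] = 0) (h1 : coeff u [true] = 0)
    (h : (X1 - X0) * u - u * (X1 - X0) ∈ comCube ℚ) : u ∈ comCube ℚ := by
  apply mem_cube
  have h2 := gen_cube h
  obtain ⟨a, b, c, d, e, f, hg⟩ := gen_upper u
  have ha : a = 0 := by
    have := gen_lie_diag hu 0
    rw [h0, h1, hg] at this
    simpa [m3] using this
  have hd : d = 0 := by
    have := gen_lie_diag hu 1
    rw [h0, h1, hg] at this
    simpa [m3] using this
  have hf : f = 0 := by
    have := gen_lie_diag hu 2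
    rw [h0, h1, hg] at this
    simpa [m3] using this
  subst ha hd hf
  rw [map_sub, map_mul, map_mul, map_sub, hg, gen_true, gen_false] at h2
  have hs : (m3 (MvPolynomial.X 1) 1 0 (MvPolynomial.X 3) 1 (MvPolynomial.X 5) -
      m3 (MvPolynomial.X 0) 0 0 (MvPolynomial.X 2) 0 (MvPolynomial.X 4) :
      Matrix (Fin 3) (Fin 3) (MvPolynomial (Fin 6) ℚ)) =
      m3 (MvPolynomial.X 1 - MvPolynomial.X 0) 1 0 (MvPolynomial.X 3 - MvPolynomial.X 2) 1
        (MvPolynomial.X 5 - MvPolynomial.X 4) := by
    ext1 i j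
    fin_cases i <;> fin_cases j <;> simp [m3, Matrix.sub_apply]
  rw [hs, m3_mul, m3_mul] at h2
  have e01 := congrFun (congrFun h2 0) 1
  have e12 := congrFun (congrFun h2 1) 2
  have e02 := congrFun (congrFun h2 0) 2
  simp [m3, Matrix.sub_apply] at e01 e12 e02
  have hb : b = 0 := by
    apply cancel_quad (quad_ne 1 0 3 2 (by decide) (by decide)
      (by decide))
    linear_combination e01
  have he : e = 0 := by
    apply cancel_quad (quad_ne 3 2 5 4 (by decide) (by decide)
      (by decide))
    linear_combination e12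
  subst hb he
  have hc : c = 0 := by
    apply cancel_quad (quad_ne 1 0 5 4 (by decide) (by decide)
      (by decide))
    linear_combination e02
  subst hc
  rw [hg]
  ext1 i j
  fin_cases i <;> fin_cases j <;> simp [m3]

/-- The three-cycle relation modulo the cube of the commutator ideal. -/
theorem hexagon_cube {ψ : QX} (h : ψ ∈ dm0) :
    ψ + shiftX (rhX ψ) + ttX (rhX ψ) ∈ comCube ℚ := by
  have hL : ψ ∈ LieX := h.1
  have hs : ψ + rhX ψ ∈ comCube ℚ := by
    have h1 := lie_cube (dm0_subset_DS1 h)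
    rw [dual_lie hL, sub_neg_eq_add] at h1
    exact h1
  have cs : ∃ r : ℚ, shiftX (com ℚ) = r • com ℚ := by
    refine ⟨-1, ?_⟩
    have e : com ℚ = X0 * X1 - X1 * X0 := rfl
    rw [e, map_sub, map_mul, map_mul, shiftX_X0, shiftX_X1, neg_one_smul]
    noncomm_ring
  have ct : ∃ r : ℚ, ttX (com ℚ) = r • com ℚ := by
    refine ⟨-1, ?_⟩
    have e : com ℚ = X0 * X1 - X1 * X0 := rfl
    rw [e, map_sub, map_mul, map_mul, ttX_X0, ttX_X1, neg_one_smul]
    noncomm_ring
  have h1 := cube_hom shiftX hs cs
  have h2 := cube_hom ttX hs ct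
  rw [map_add] at h1 h2
  set u := shiftX ψ + ttX ψ - ψ with hu
  have ha := two_term h
  -- the relation `Four` modulo the cube
  have hb := congrArg rhX ha
  simp only [map_add, map_sub, map_mul, map_zero, rhX_X0, rhX_X1, rh_shift] at hb
  have hb2 : -(X1 * ψ - ψ * X1) + ((X1 - X0) * ttX ψ - ttX ψ * (X1 - X0)) ∈ comCube ℚ := by
    have e : -(X1 * ψ - ψ * X1) + ((X1 - X0) * ttX ψ - ttX ψ * (X1 - X0)) =
        -(-X1 * rhX ψ - rhX ψ * -X1 +
          ((-X0 - -X1) * ttX (rhX ψ) - ttX (rhX ψ) * (-X0 - -X1))) +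
        (-(X1 * (ψ + rhX ψ)) + (ψ + rhX ψ) * X1 +
          ((X1 - X0) * (ttX ψ + ttX (rhX ψ)) - (ttX ψ + ttX (rhX ψ)) * (X1 - X0))) := by
      noncomm_ring
    rw [e, hb, neg_zero, zero_add]
    exact Submodule.add_mem _ (Submodule.add_mem _ (Submodule.neg_mem _ (cube_mul _ hs))
      (cube_mul_right _ hs)) (Submodule.sub_mem _ (cube_mul _ h2) (cube_mul_right _ h2))
  have hcomm : (X1 - X0) * u - u * (X1 - X0) ∈ comCube ℚ := by
    have e : (X1 - X0) * u - u * (X1 - X0) =
        ((X0 * ψ - ψ * X0) + ((X1 - X0) * shiftX ψ - shiftX ψ * (X1 - X0))) +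
        (-(X1 * ψ - ψ * X1) + ((X1 - X0) * ttX ψ - ttX ψ * (X1 - X0))) := by
      rw [hu]; noncomm_ring
    rw [e, ha, zero_add]
    exact hb2
  have huL : u ∈ LieX := by
    rw [hu]; exact sub_mem (add_mem (shift_mem hL) (tt_mem hL)) hL
  have hlin : ∀ b, coeff u [b] = 0 := by
    intro b
    rw [hu, coeff_sub, coeff_add, lin_hom _ shift_nil (lie_ins hL).1 h.2.1 h.2.2.1,
      lin_hom _ tt_nil (lie_ins hL).1 h.2.1 h.2.2.1]
    cases b
    · rw [h.2.1]; ring
    · rw [h.2.2.1]; ring
  have hu3 := comm_cube huL (hlin false) (hlin true) hcomm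
  have e : ψ + shiftX (rhX ψ) + ttX (rhX ψ) =
      -u + ((shiftX ψ + shiftX (rhX ψ)) + (ttX ψ + ttX (rhX ψ))) := by
    rw [hu]; abel
  rw [e]
  exact Submodule.add_mem _ (Submodule.neg_mem _ hu3) (Submodule.add_mem _ h1 h2)

end lie

end Pool.Agent.MP_a57f33_nt.Tri
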