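import Pool.Agent.Lib.MP_a57f33_nt.Tri.YSer

/-!
Sums over words evaluated at triangular matrices of size 2 and 3.
-/

namespace Pool.Agent.MP_a57f33_nt.Tri

set_option linter.unusedSectionVars false

open Pool.Agent.MP_a57f33_nt.Cyc

section entries

variable {k : Type*} [CommRing k] {K : Type*} [CommRing K] [Algebra k K]

/-- Upper triangular matrices of size 2. -/
def m2 (p s p' : K) : Matrix (Fin 2) (Fin 2) K := !![p, s; 0, p']

/-- Upper triangular matrices of size 3. -/
def m3 (p0 s1 s' p1 s2 p2 : K) : Matrix (Fin 3) (Fin 3) K := !![p0, s1, s'; 0, p1, s2; 0, 0, p2]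

lemma m2_mul (a b c a' b' c' : K) :
    m2 a b c * m2 a' b' c' = m2 (a * a') (a * b' + b * c') (c * c') := by
  ext i j
  fin_cases i <;> fin_cases j <;> simp [m2, Matrix.mul_apply, Fin.sum_univ_two]

lemma m2_add (a b c a' b' c' : K) :
    m2 a b c + m2 a' b' c' = m2 (a + a') (b + b') (c + c') := by
  ext i j
  fin_cases i <;> fin_cases j <;> simp [m2]

lemma m3_mul (a b c d e f a' b' c' d' e' f' : K) :
    m3 a b c d e f * m3 a' b' c' d' e' f' =
      m3 (a * a') (a * b' + b * d') (a * c' + b * e' + c * f') (d * d') (d * e' + e * f')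
        (f * f') := by
  ext i j
  fin_cases i <;> fin_cases j <;> simp [m3, Matrix.mul_apply, Fin.sum_univ_three]

lemma m3_add (a b c d e f a' b' c' d' e' f' : K) :
    m3 a b c d e f + m3 a' b' c' d' e' f' =
      m3 (a + a') (b + b') (c + c') (d + d') (e + e') (f + f') := by
  ext i j
  fin_cases i <;> fin_cases j <;> simp [m3]

/-- The entry `(0,1)` of `ser` at triangular matrices. -/
def x2 (p0 q0 p1 q1 s r : K) : ℕ → (List Bool → k) → K
  | 0, _ => 0
  | n + 1, c =>
    (p0 * x2 p0 q0 p1 q1 s r n (fun t => c (false :: t)) +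
        s * ser p1 q1 n (fun t => c (false :: t))) +
      (q0 * x2 p0 q0 p1 q1 s r n (fun t => c (true :: t)) +
        r * ser p1 q1 n (fun t => c (true :: t)))

/-- The entry `(0,2)` of `ser` at triangular matrices. -/
def x3 (p0 q0 s1 r1 s' r' p1 q1 s2 r2 p2 q2 : K) : ℕ → (List Bool → k) → K
  | 0, _ => 0
  | n + 1, c =>
    (p0 * x3 p0 q0 s1 r1 s' r' p1 q1 s2 r2 p2 q2 n (fun t => c (false :: t)) +
        s1 * x2 p1 q1 p2 q2 s2 r2 n (fun t => c (false :: t)) +
        s' * ser p2 q2 n (fun t => c (false :: t))) +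
      (q0 * x3 p0 q0 s1 r1 s' r' p1 q1 s2 r2 p2 q2 n (fun t => c (true :: t)) +
        r1 * x2 p1 q1 p2 q2 s2 r2 n (fun t => c (true :: t)) +
        r' * ser p2 q2 n (fun t => c (true :: t)))

lemma smul_one_m2 (r : k) : r • (1 : Matrix (Fin 2) (Fin 2) K) = m2 (r • 1) 0 (r • 1) := by
  ext i j
  fin_cases i <;> fin_cases j <;> simp [m2]

lemma smul_one_m3 (r : k) :
    r • (1 : Matrix (Fin 3) (Fin 3) K) = m3 (r • 1) 0 0 (r • 1) 0 (r • 1) := by
  ext i j
  fin_cases i <;> fin_cases j <;> simp [m3]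

lemma ser_m2 (p0 q0 p1 q1 s r : K) (n : ℕ) : ∀ c : List Bool → k,
    ser (m2 p0 s p1) (m2 q0 r q1) n c =
      m2 (ser p0 q0 n c) (x2 p0 q0 p1 q1 s r n c) (ser p1 q1 n c) := by
  induction n with
  | zero => intro c; simp only [ser, x2, smul_one_m2]
  | succ n ih => intro c; simp only [ser, x2, ih, m2_mul, m2_add]

lemma ser_m3 (p0 q0 s1 r1 s' r' p1 q1 s2 r2 p2 q2 : K) (n : ℕ) : ∀ c : List Bool → k,
    ser (m3 p0 s1 s' p1 s2 p2) (m3 q0 r1 r' q1 r2 q2) n c =
      m3 (ser p0 q0 n c) (x2 p0 q0 p1 q1 s1 r1 n c)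
        (x3 p0 q0 s1 r1 s' r' p1 q1 s2 r2 p2 q2 n c) (ser p1 q1 n c)
        (x2 p1 q1 p2 q2 s2 r2 n c) (ser p2 q2 n c) := by
  induction n with
  | zero => intro c; simp only [ser, x2, x3, smul_one_m3]
  | succ n ih => intro c; simp only [ser, x2, x3, ih, m3_mul, m3_add]

lemma m2_inj {a b c a' b' c' : K} (h : m2 a b c = m2 a' b' c') : a = a' ∧ b = b' ∧ c = c' := by
  have h0 := congrFun (congrFun h 0) 0
  have h1 := congrFun (congrFun h 0) 1
  have h2 := congrFun (congrFun h 1) 1
  simp [m2] at h0 h1 h2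
  exact ⟨h0, h1, h2⟩

lemma m3_inj {a b c d e f a' b' c' d' e' f' : K} (h : m3 a b c d e f = m3 a' b' c' d' e' f') :
    a = a' ∧ b = b' ∧ c = c' ∧ d = d' ∧ e = e' ∧ f = f' := by
  have h0 := congrFun (congrFun h 0) 0
  have h1 := congrFun (congrFun h 0) 1
  have h2 := congrFun (congrFun h 0) 2
  have h3 := congrFun (congrFun h 1) 1
  have h4 := congrFun (congrFun h 1) 2
  have h5 := congrFun (congrFun h 2) 2
  simp [m3] at h0 h1 h2 h3 h4 h5
  exact ⟨h0, h1, h2, h3, h4, h5⟩

lemma x2_snoc (p0 q0 p1 q1 s r : K) (n : ℕ) (c : List Bool → k) :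
    x2 p0 q0 p1 q1 s r (n + 1) c =
      (ser p0 q0 n (fun t => c (t ++ [false])) * s +
        x2 p0 q0 p1 q1 s r n (fun t => c (t ++ [false])) * p1) +
      (ser p0 q0 n (fun t => c (t ++ [true])) * r +
        x2 p0 q0 p1 q1 s r n (fun t => c (t ++ [true])) * q1) := by
  have h := ser_snoc (m2 p0 s p1) (m2 q0 r q1) n c
  rw [ser_m2, ser_m2, ser_m2, m2_mul, m2_mul, m2_add] at h
  exact (m2_inj h).2.1

lemma x3_snoc (p0 q0 s1 r1 s' r' p1 q1 s2 r2 p2 q2 : K) (n : ℕ) (c : List Bool → k) :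
    x3 p0 q0 s1 r1 s' r' p1 q1 s2 r2 p2 q2 (n + 1) c =
      (ser p0 q0 n (fun t => c (t ++ [false])) * s' +
        x2 p0 q0 p1 q1 s1 r1 n (fun t => c (t ++ [false])) * s2 +
        x3 p0 q0 s1 r1 s' r' p1 q1 s2 r2 p2 q2 n (fun t => c (t ++ [false])) * p2) +
      (ser p0 q0 n (fun t => c (t ++ [true])) * r' +
        x2 p0 q0 p1 q1 s1 r1 n (fun t => c (t ++ [true])) * r2 +
        x3 p0 q0 s1 r1 s' r' p1 q1 s2 r2 p2 q2 n (fun t => c (t ++ [true])) * q2) := by
  have h := ser_snoc (m3 p0 s1 s' p1 s2 p2) (m3 q0 r1 r' q1 r2 q2) n c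
  rw [ser_m3, ser_m3, ser_m3, m3_mul, m3_mul, m3_add] at h
  exact (m3_inj h).2.2.1

lemma x2_linear (p0 q0 p1 q1 s r : K) (n : ℕ) : ∀ c : List Bool → k,
    x2 p0 q0 p1 q1 s r n c = s * x2 p0 q0 p1 q1 1 0 n c + r * x2 p0 q0 p1 q1 0 1 n c := by
  induction n with
  | zero => intro c; simp [x2]
  | succ n ih => intro c; simp only [x2]; rw [ih (fun t => c (false :: t)), ih]; ring

lemma x2_inner (p0 q0 p1 q1 : K) (n : ℕ) : ∀ c : List Bool → k,
    x2 p0 q0 p1 q1 (p0 - p1) (q0 - q1) n c = ser p0 q0 n c - ser p1 q1 n c := by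
  induction n with
  | zero => intro c; simp [x2, ser]
  | succ n ih => intro c; simp only [x2, ser, ih]; ring

section
variable {K' : Type*} [CommRing K'] [Algebra k K']

lemma x2_map (f : K →ₐ[k] K') (p0 q0 p1 q1 s r : K) (n : ℕ) : ∀ c : List Bool → k,
    f (x2 p0 q0 p1 q1 s r n c) = x2 (f p0) (f q0) (f p1) (f q1) (f s) (f r) n c := by
  induction n with
  | zero => intro c; simp [x2]
  | succ n ih => intro c; simp only [x2, map_add, map_mul, ih, ser_map]

end

end entries

section translate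

variable {k : Type*} [CommRing k] {K : Type*} [CommRing K] [Algebra k K] [Algebra ℚ K]
variable {ι : Type*} [Fintype ι] [DecidableEq ι]

lemma ser_translate {c : List Bool → k} (h0 : ∀ w, insK false w c = 0)
    (h1 : ∀ w, insK true w c = 0) (A B : Matrix ι ι K) (p q : K) (n : ℕ) :
    ser (A + p • (1 : Matrix ι ι K)) (B + q • (1 : Matrix ι ι K)) n c = ser A B n c := by
  cases n with
  | zero => simp [ser]
  | succ n =>
    set A' : Matrix ι ι (Polynomial K) := A.map Polynomial.C +
      (Polynomial.X * Polynomial.C p) • (1 : Matrix ι ι (Polynomial K)) with hA'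
    set B' : Matrix ι ι (Polynomial K) := B.map Polynomial.C +
      (Polynomial.X * Polynomial.C q) • (1 : Matrix ι ι (Polynomial K)) with hB'
    have d : ∀ (M : Matrix ι ι K) (r : K), dM (M.map Polynomial.C +
        (Polynomial.X * Polynomial.C r) • (1 : Matrix ι ι (Polynomial K))) =
        (Polynomial.C r) • (1 : Matrix ι ι (Polynomial K)) := by
      intro M r
      ext1 i j
      rw [dM_apply, Matrix.add_apply, Matrix.smul_apply, Matrix.smul_apply, Matrix.map_apply,
        Matrix.one_apply]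
      split_ifs <;> simp [Polynomial.derivative_mul]
    have e : ∀ (M : Matrix ι ι K) (r s : K), evM k s (M.map Polynomial.C +
        (Polynomial.X * Polynomial.C r) • (1 : Matrix ι ι (Polynomial K))) =
        M + (s * r) • (1 : Matrix ι ι K) := by
      intro M r s
      ext1 i j
      rw [evM_apply, Matrix.add_apply, Matrix.smul_apply, Matrix.map_apply, Matrix.one_apply,
        Matrix.add_apply, Matrix.smul_apply, Matrix.one_apply]
      split_ifs
      · simp; ring
      · simp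
    have h := ser_deriv dM dM_smul_one dM_mul A' B' _ _ (d A p) (d B q)
      (fun x => by rw [smul_mul_assoc, mul_smul_comm, one_mul, mul_one])
      (fun x => by rw [smul_mul_assoc, mul_smul_comm, one_mul, mul_one]) n c
    have z0 : (fun t => insK false t c) = fun _ => (0 : k) := by funext t; exact h0 t
    have z1 : (fun t => insK true t c) = fun _ => (0 : k) := by funext t; exact h1 t
    rw [z0, z1, ser_zero, mul_zero, mul_zero, add_zero] at h
    have h2 : evM k (1 : K) (ser A' B' (n + 1) c) = evM k (0 : K) (ser A' B' (n + 1) c) := by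
      ext1 i j
      rw [evM_apply, evM_apply]
      refine eval_of_derivative ?_ _ _
      rw [← dM_apply, h]
      rfl
    rw [ser_map, ser_map, hA', hB', e, e, e, e] at h2
    simpa using h2

end translate

end Pool.Agent.MP_a57f33_nt.Tri
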