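import Pool.Agent.Lib.MP_a57f33_nt.CycDS

/-!
The sums `∑_{|w| = n} c(w) w(A, B)` over the words of length `n`.
-/

namespace Pool.Agent.MP_a57f33_nt.Tri

set_option linter.unusedSectionVars false

open Pool.Agent.MP_a57f33_nt.Cyc

section basic

variable {k : Type*} [CommRing k] {S : Type*} [Ring S] [Algebra k S]

/-- The sum of `c(w) w(A, B)` over the words `w` of length `n`. -/
def ser (A B : S) : ℕ → (List Bool → k) → S
  | 0, c => c [] • (1 : S)
  | n + 1, c => A * ser A B n (fun t => c (false :: t)) + B * ser A B n (fun t => c (true :: t))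

lemma ser_map {S' : Type*} [Ring S'] [Algebra k S'] (f : S →ₐ[k] S') (A B : S) (n : ℕ) :
    ∀ c : List Bool → k, f (ser A B n c) = ser (f A) (f B) n c := by
  induction n with
  | zero => intro c; simp [ser]
  | succ n ih => intro c; simp only [ser, map_add, map_mul, ih]

lemma ser_snoc (A B : S) (n : ℕ) : ∀ c : List Bool → k, ser A B (n + 1) c =
    ser A B n (fun t => c (t ++ [false])) * A + ser A B n (fun t => c (t ++ [true])) * B := by
  induction n with
  | zero => intro c; simp [ser]
  | succ n ih =>
    intro c
    rw [ser, ih, ih, ser, ser]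
    simp only [List.cons_append]
    noncomm_ring

lemma ser_congr (A B : S) (n : ℕ) : ∀ c c' : List Bool → k,
    (∀ t, t.length = n → c t = c' t) → ser A B n c = ser A B n c' := by
  induction n with
  | zero => intro c c' h; simp [ser, h [] rfl]
  | succ n ih =>
    intro c c' h
    rw [ser, ser, ih _ (fun t => c' (false :: t)) (fun t ht => h _ (by simp [ht])),
      ih _ (fun t => c' (true :: t)) (fun t ht => h _ (by simp [ht]))]

lemma ser_add (A B : S) (n : ℕ) : ∀ c c' : List Bool → k,
    ser A B n (fun t => c t + c' t) = ser A B n c + ser A B n c' := by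
  induction n with
  | zero => intro c c'; simp [ser, add_smul]
  | succ n ih => intro c c'; simp only [ser, ih]; noncomm_ring

lemma ser_smul (A B : S) (n : ℕ) : ∀ (r : k) (c : List Bool → k),
    ser A B n (fun t => r * c t) = r • ser A B n c := by
  induction n with
  | zero => intro r c; simp [ser, mul_smul]
  | succ n ih => intro r c; simp only [ser, ih, smul_add, mul_smul_comm]

lemma ser_neg (A B : S) (n : ℕ) (c : List Bool → k) :
    ser A B n (fun t => - c t) = - ser A B n c := by
  have := ser_smul A B n (-1) c
  simpa using this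

lemma ser_sub (A B : S) (n : ℕ) (c c' : List Bool → k) :
    ser A B n (fun t => c t - c' t) = ser A B n c - ser A B n c' := by
  have h : (fun t => c t - c' t) = fun t => c t + (fun t => - c' t) t := by
    funext t; ring
  rw [h, ser_add, ser_neg]; abel

lemma ser_zero (A B : S) (n : ℕ) : ser A B n (fun _ => (0 : k)) = 0 := by
  have := ser_smul A B n (0 : k) (fun _ => 0)
  simpa using this

/-- Swap of the letters. -/
lemma ser_swap (A B : S) (n : ℕ) : ∀ c : List Bool → k,
    ser A B n (fun t => c (t.map not)) = ser B A n c := by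
  induction n with
  | zero => intro c; simp [ser]
  | succ n ih =>
    intro c
    simp only [ser, List.map_cons, Bool.not_false, Bool.not_true]
    rw [ih (fun t => c (true :: t)), ih (fun t => c (false :: t))]
    abel

/-- Scaling. -/
lemma ser_scale (A B : S) (n : ℕ) : ∀ (c : List Bool → k) (r : k),
    ser (r • A) (r • B) n c = r ^ n • ser A B n c := by
  induction n with
  | zero => intro c r; simp [ser]
  | succ n ih =>
    intro c r
    simp only [ser, ih, smul_mul_assoc, mul_smul_comm, smul_add, smul_smul]
    rw [pow_succ' r n, mul_comm (r ^ n) r]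

lemma ser_conv (A B : S) (n : ℕ) : ∀ f g : List Bool → k,
    ser A B n (conv f g) = ∑ i ∈ Finset.range (n + 1), ser A B i f * ser A B (n - i) g := by
  induction n with
  | zero =>
    intro f g
    simp only [ser, conv, cut, zero_add, Finset.range_one, Finset.sum_singleton, Nat.sub_zero,
      smul_mul_assoc, one_mul, smul_smul]
  | succ n ih =>
    intro f g
    have h1 : ∀ b : Bool, (fun t => conv f g (b :: t)) =
        fun t => f [] * (fun t => g (b :: t)) t + conv (fun s => f (b :: s)) g t := by
      intro b; funext t; rfl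
    have h2 : ser A B (n + 1) (conv f g) = A * ser A B n (fun t => conv f g (false :: t)) +
        B * ser A B n (fun t => conv f g (true :: t)) := rfl
    rw [h2, h1, h1, ser_add, ser_add, ser_smul, ser_smul, ih, ih,
      Finset.sum_range_succ' _ (n + 1)]
    have h3 : ∀ i ∈ Finset.range (n + 1), ser A B (i + 1) f * ser A B (n + 1 - (i + 1)) g =
        A * (ser A B i (fun s => f (false :: s)) * ser A B (n - i) g) +
          B * (ser A B i (fun s => f (true :: s)) * ser A B (n - i) g) := by
      intro i _
      have : n + 1 - (i + 1) = n - i := by omega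
      rw [this, ser]; noncomm_ring
    rw [Finset.sum_congr rfl h3, Finset.sum_add_distrib, ← Finset.mul_sum, ← Finset.mul_sum]
    simp only [ser, Nat.sub_zero, smul_mul_assoc, one_mul, mul_add, mul_smul_comm]
    abel

/-- The derivative of `ser`. -/
lemma ser_deriv (δ : S →+ S) (hk : ∀ r : k, δ (r • (1 : S)) = 0)
    (hmul : ∀ x y, δ (x * y) = δ x * y + x * δ y) (A B a b : S) (hA : δ A = a) (hB : δ B = b)
    (ha : ∀ x, a * x = x * a) (hb : ∀ x, b * x = x * b) (n : ℕ) : ∀ c : List Bool → k,
    δ (ser A B (n + 1) c) = a * ser A B n (fun t => insK false t c) +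
      b * ser A B n (fun t => insK true t c) := by
  induction n with
  | zero =>
    intro c
    simp only [ser, map_add, hmul, hk, hA, hB, insK]
    simp
  | succ n ih =>
    intro c
    have h2 : ser A B (n + 1 + 1) c = A * ser A B (n + 1) (fun t => c (false :: t)) +
        B * ser A B (n + 1) (fun t => c (true :: t)) := rfl
    rw [h2, map_add, hmul, hmul, ih, ih, hA, hB]
    have h3 : ser A B (n + 1) (fun t => insK false t c) =
        A * ser A B n (fun t => insK false (false :: t) c) +
          B * ser A B n (fun t => insK false (true :: t) c) := rfl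
    have h4 : ser A B (n + 1) (fun t => insK true t c) =
        A * ser A B n (fun t => insK true (false :: t) c) +
          B * ser A B n (fun t => insK true (true :: t) c) := rfl
    have h5 : ∀ d e : Bool, (fun t => insK d (e :: t) c) =
        fun t => (fun t => c (d :: e :: t)) t + (fun t => insK d t (fun s => c (e :: s))) t := by
      intro d e; funext t; rfl
    rw [h3, h4, h5, h5, h5, h5, ser_add, ser_add, ser_add, ser_add, ser, ser]
    have e1 : ∀ x, A * (a * x) = a * (A * x) := fun x => by rw [← mul_assoc, ← ha, mul_assoc]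
    have e2 : ∀ x, A * (b * x) = b * (A * x) := fun x => by rw [← mul_assoc, ← hb, mul_assoc]
    have e3 : ∀ x, B * (a * x) = a * (B * x) := fun x => by rw [← mul_assoc, ← ha, mul_assoc]
    have e4 : ∀ x, B * (b * x) = b * (B * x) := fun x => by rw [← mul_assoc, ← hb, mul_assoc]
    simp only [mul_add, e1, e2, e3, e4]
    abel

end basic

section mat

variable {k : Type*} [CommRing k] {K : Type*} [CommRing K] [Algebra k K]
variable {ι κ : Type*} [Fintype ι] [DecidableEq ι] [Fintype κ] [DecidableEq κ]

/-- Intertwining matrices. -/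
lemma ser_inter {A B : Matrix ι ι K} {A' B' : Matrix κ κ K} {X : Matrix ι κ K}
    (hA : A * X = X * A') (hB : B * X = X * B') (n : ℕ) : ∀ c : List Bool → k,
    ser A B n c * X = X * ser A' B' n c := by
  induction n with
  | zero => intro c; simp [ser]
  | succ n ih =>
    intro c
    simp only [ser]
    rw [Matrix.add_mul, Matrix.mul_assoc, Matrix.mul_assoc, ih, ih, Matrix.mul_add,
      ← Matrix.mul_assoc, ← Matrix.mul_assoc, hA, hB, Matrix.mul_assoc, Matrix.mul_assoc]

/-- Entrywise derivative. -/
noncomputable def dM : Matrix ι ι (Polynomial K) →+ Matrix ι ι (Polynomial K) where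
  toFun M := M.map Polynomial.derivative
  map_zero' := by ext; simp
  map_add' := by intro M N; ext; simp

lemma dM_apply (M : Matrix ι ι (Polynomial K)) (i j : ι) :
    dM M i j = Polynomial.derivative (M i j) := rfl

lemma dM_mul (M N : Matrix ι ι (Polynomial K)) : dM (M * N) = dM M * N + M * dM N := by
  ext1 i j
  simp only [dM_apply, Matrix.mul_apply, Matrix.add_apply, map_sum, Polynomial.derivative_mul,
    Finset.sum_add_distrib]

lemma dM_smul_one (r : k) : dM (r • (1 : Matrix ι ι (Polynomial K))) = 0 := by
  ext1 i j
  rw [dM_apply, Matrix.smul_apply, Matrix.one_apply]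
  split_ifs
  · rw [Algebra.smul_def, Polynomial.algebraMap_apply]; simp
  · simp

/-- Evaluation. -/
noncomputable def evM (k : Type*) [CommRing k] {K : Type*} [CommRing K] [Algebra k K]
    {ι : Type*} [Fintype ι] [DecidableEq ι] (s : K) :
    Matrix ι ι (Polynomial K) →ₐ[k] Matrix ι ι K :=
  ((Polynomial.aeval s : Polynomial K →ₐ[K] K).restrictScalars k).mapMatrix

lemma evM_apply (s : K) (M : Matrix ι ι (Polynomial K)) (i j : ι) :
    evM k s M i j = Polynomial.eval s (M i j) := by
  simp [evM, Polynomial.coe_aeval_eq_eval]

end mat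

section const

variable {k : Type*} [CommRing k] [Algebra ℚ k] {K : Type*} [CommRing K] [Algebra k K]

lemma rat_cancel [Algebra ℚ K] {n : ℕ} {x : K} (h : x * ((n : K) + 1) = 0) : x = 0 := by
  have h2 : algebraMap ℚ K (((n : ℚ) + 1)⁻¹) * ((n : K) + 1) = 1 := by
    have h3 : ((n : K) + 1) = algebraMap ℚ K ((n : ℚ) + 1) := by simp
    rw [h3, ← map_mul, inv_mul_cancel₀ (by positivity), map_one]
  calc x = x * (algebraMap ℚ K (((n : ℚ) + 1)⁻¹) * ((n : K) + 1)) := by rw [h2, mul_one]
    _ = algebraMap ℚ K (((n : ℚ) + 1)⁻¹) * (x * ((n : K) + 1)) := by ring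
    _ = 0 := by rw [h, mul_zero]

lemma eval_of_derivative [Algebra ℚ K] {P : Polynomial K} (h : Polynomial.derivative P = 0)
    (s t : K) : P.eval s = P.eval t := by
  have h1 : P = Polynomial.C (P.coeff 0) := by
    ext n
    cases n with
    | zero => simp
    | succ n =>
      rw [Polynomial.coeff_C_succ]
      have h2 := congrArg (fun Q => Polynomial.coeff Q n) h
      simp only [Polynomial.coeff_derivative, Polynomial.coeff_zero] at h2
      exact rat_cancel h2
  rw [h1]; simp

end const

end Pool.Agent.MP_a57f33_nt.Tri
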