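import Pool.Agent.Lib.MP_a57f33_nt.Tri.Ser

/-!
The sums `∑_{|u| = n} c(u) φ(u)` over the words of weight `n` in the letters `y_m`.
-/

namespace Pool.Agent.MP_a57f33_nt.Tri

set_option linter.unusedSectionVars false

open Pool.Agent.MP_a57f33_nt.Cyc

section basic

variable {k : Type*} [CommRing k] {S : Type*} [Ring S] [Algebra k S]

/-- The sum of `c(u) φ(u)` over the words `u` of weight `n`, where `φ` is multiplicative with
`φ(y_m) = φ m`. -/
def ys (φ : ℕ → S) : ℕ → (List ℕ+ → k) → S
  | 0, c => c [] • (1 : S)
  | n + 1, c => ∑ i : Fin (n + 1), φ (i + 1) * ys φ (n - i) (fun u => c ((i : ℕ).succPNat :: u))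
termination_by n => n

lemma ys_zero (φ : ℕ → S) (c : List ℕ+ → k) : ys φ 0 c = c [] • (1 : S) := by
  rw [ys]

lemma ys_succ (φ : ℕ → S) (n : ℕ) (c : List ℕ+ → k) : ys φ (n + 1) c =
    ∑ i ∈ Finset.range (n + 1), φ (i + 1) * ys φ (n - i) (fun u => c (i.succPNat :: u)) := by
  rw [ys, Finset.sum_range]

lemma ys_map {S' : Type*} [Ring S'] [Algebra k S'] (f : S →ₐ[k] S') (φ : ℕ → S) (n : ℕ) :
    ∀ c : List ℕ+ → k, f (ys φ n c) = ys (fun i => f (φ i)) n c := by
  induction n using Nat.strong_induction_on with
  | _ n ih =>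
    intro c
    cases n with
    | zero => simp [ys_zero]
    | succ n =>
      rw [ys_succ, ys_succ, map_sum]
      refine Finset.sum_congr rfl fun i hi => ?_
      rw [map_mul, ih _ (by omega)]

lemma ys_congr_phi {φ φ' : ℕ → S} (h : ∀ i, φ (i + 1) = φ' (i + 1)) (n : ℕ) :
    ∀ c : List ℕ+ → k, ys φ n c = ys φ' n c := by
  induction n using Nat.strong_induction_on with
  | _ n ih =>
    intro c
    cases n with
    | zero => simp [ys_zero]
    | succ n =>
      rw [ys_succ, ys_succ]
      refine Finset.sum_congr rfl fun i hi => ?_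
      rw [h, ih _ (by omega)]

lemma ys_add (φ : ℕ → S) (n : ℕ) : ∀ c c' : List ℕ+ → k,
    ys φ n (fun t => c t + c' t) = ys φ n c + ys φ n c' := by
  induction n using Nat.strong_induction_on with
  | _ n ih =>
    intro c c'
    cases n with
    | zero => simp [ys_zero, add_smul]
    | succ n =>
      rw [ys_succ, ys_succ, ys_succ, ← Finset.sum_add_distrib]
      refine Finset.sum_congr rfl fun i hi => ?_
      rw [ih _ (by omega), mul_add]

lemma ys_smul (φ : ℕ → S) (n : ℕ) : ∀ (r : k) (c : List ℕ+ → k),
    ys φ n (fun t => r * c t) = r • ys φ n c := by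
  induction n using Nat.strong_induction_on with
  | _ n ih =>
    intro r c
    cases n with
    | zero => simp [ys_zero, mul_smul]
    | succ n =>
      rw [ys_succ, ys_succ, Finset.smul_sum]
      refine Finset.sum_congr rfl fun i hi => ?_
      rw [ih _ (by omega), mul_smul_comm]

lemma ys_sub (φ : ℕ → S) (n : ℕ) (c c' : List ℕ+ → k) :
    ys φ n (fun t => c t - c' t) = ys φ n c - ys φ n c' := by
  have h : (fun t => c t - c' t) = fun t => c t + (fun t => (-1) * c' t) t := by
    funext t; ring
  rw [h, ys_add, ys_smul]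
  simp [sub_eq_add_neg]

/-- Words ending in `x₁`. -/
lemma ys_toX (U V : S) (n : ℕ) : ∀ c : List Bool → k,
    ys (fun i => U ^ (i - 1) * V) (n + 1) (fun u => c (toX u)) =
      ser U V n (fun t => c (t ++ [true])) * V := by
  induction n with
  | zero =>
    intro c
    rw [ys_succ]
    simp [ys_zero, ser, toX]
  | succ n ih =>
    intro c
    have h0 := ys_succ (fun i => U ^ (i - 1) * V) (n + 1) (fun u => c (toX u))
    have h1 := ys_succ (fun i => U ^ (i - 1) * V) n (fun u => (fun t => c (false :: t)) (toX u))
    have hi0 := ih (fun t => c (false :: t))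
    have hi1 := ih (fun t => c (true :: t))
    rw [hi0] at h1
    rw [h0, Finset.sum_range_succ']
    have h2 : ∀ i ∈ Finset.range (n + 1), (fun i => U ^ (i - 1) * V) (i + 1 + 1) *
        ys (fun i => U ^ (i - 1) * V) (n + 1 - (i + 1))
          (fun u => c (toX ((i + 1).succPNat :: u))) =
        U * ((fun i => U ^ (i - 1) * V) (i + 1) * ys (fun i => U ^ (i - 1) * V) (n - i)
          (fun u => c (false :: toX (i.succPNat :: u)))) := by
      intro i _
      have e1 : n + 1 - (i + 1) = n - i := by omega
      have e2 : (fun u => c (toX ((i + 1).succPNat :: u))) =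
          fun u => c (false :: toX (i.succPNat :: u)) := by
        funext u
        simp [toX, List.replicate_succ]
      rw [e1, e2]
      beta_reduce
      rw [show i + 1 + 1 - 1 = i + 1 by omega, show i + 1 - 1 = i by omega, pow_succ']
      noncomm_ring
    rw [Finset.sum_congr rfl h2, ← Finset.mul_sum, ← h1]
    have h3 : (fun u => c (toX (Nat.succPNat 0 :: u))) =
        fun u => (fun t => c (true :: t)) (toX u) := by
      funext u; simp [toX]
    rw [h3, show n + 1 - 0 = n + 1 by omega, hi1, ser]
    simp only [List.cons_append]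
    simp
    noncomm_ring

end basic

section deriv

variable {k : Type*} [CommRing k] {S : Type*} [Ring S] [Algebra k S]

/-- `so` without the word obtained by prepending. -/
def so' (n : ℕ+) : List ℕ+ → (List ℕ+ → k) → k
  | [], _ => 0
  | b :: v, f => f ((n + b) :: v) + so n v (fun t => f (b :: t))

lemma so_eq_add (n : ℕ+) (u : List ℕ+) (f : List ℕ+ → k) :
    so n u f = f (n :: u) + so' n u f := by
  cases u with
  | nil => simp [so, so']
  | cons b v => simp only [so, so']; ring

lemma sum_triangle {M : Type*} [AddCommMonoid M] (n : ℕ) (f : ℕ → ℕ → M) :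
    ∑ i ∈ Finset.range n, ∑ l ∈ Finset.range (n - i), f l i =
      ∑ l ∈ Finset.range n, ∑ i ∈ Finset.range (n - l), f l i := by
  apply Finset.sum_comm'
  intro x y
  simp only [Finset.mem_range]
  omega

lemma sum_triangle_diag {M : Type*} [AddCommMonoid M] (n : ℕ) (g : ℕ → ℕ → M) :
    ∑ i ∈ Finset.range (n + 1), ∑ l ∈ Finset.range i, g l i =
      ∑ l ∈ Finset.range n, ∑ i ∈ Finset.range (n - l), g l (l + i + 1) := by
  rw [Finset.sum_sigma', Finset.sum_sigma']
  refine Finset.sum_bij' (fun x _ => (⟨x.2, x.1 - x.2 - 1⟩ : (_ : ℕ) × ℕ))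
    (fun x _ => (⟨x.1 + x.2 + 1, x.1⟩ : (_ : ℕ) × ℕ)) ?_ ?_ ?_ ?_ ?_
  · rintro ⟨i, l⟩ h
    simp only [Finset.mem_sigma, Finset.mem_range] at h ⊢
    omega
  · rintro ⟨l, i⟩ h
    simp only [Finset.mem_sigma, Finset.mem_range] at h ⊢
    omega
  · rintro ⟨i, l⟩ h
    simp only [Finset.mem_sigma, Finset.mem_range] at h
    simp only [Sigma.mk.injEq, heq_eq_eq, and_true]
    omega
  · rintro ⟨l, i⟩ h
    simp only [Finset.mem_sigma, Finset.mem_range] at h
    simp only [Sigma.mk.injEq, heq_eq_eq, true_and]
    omega
  · rintro ⟨i, l⟩ h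
    simp only [Finset.mem_sigma, Finset.mem_range] at h
    have : l + (i - l - 1) + 1 = i := by omega
    simp only [this]

/-- The derivative of `ys`. -/
lemma ys_deriv (δ : S →+ S) (hk : ∀ r : k, δ (r • (1 : S)) = 0)
    (hmul : ∀ x y, δ (x * y) = δ x * y + x * δ y) (x : S) (hx : ∀ y, x * y = y * x)
    (φ : ℕ → S) (h0 : φ 0 = 1)
    (hφ : ∀ i, δ (φ i) = ∑ l ∈ Finset.range i, x ^ l * φ (i - 1 - l)) (n : ℕ) :
    ∀ c : List ℕ+ → k, δ (ys φ n c) =
      ∑ l ∈ Finset.range n, x ^ l * ys φ (n - 1 - l) (fun u => so l.succPNat u c) := by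
  have hxl : ∀ (l : ℕ) (y z : S), y * (x ^ l * z) = x ^ l * (y * z) := by
    intro l y z
    have h : x ^ l * y = y * x ^ l := (Commute.pow_left (show Commute x y from hx y) l)
    rw [← mul_assoc, ← h, mul_assoc]
  induction n using Nat.strong_induction_on with
  | _ n ih =>
    intro c
    cases n with
    | zero => rw [ys_zero, hk]; simp
    | succ n =>
      rw [ys_succ, map_sum]
      have s1 : ∀ i ∈ Finset.range (n + 1),
          δ (φ (i + 1) * ys φ (n - i) (fun u => c (i.succPNat :: u))) =
            (x ^ i * ys φ (n - i) (fun u => c (i.succPNat :: u)) +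
            ∑ l ∈ Finset.range i, x ^ l * (φ (i - l) *
              ys φ (n - i) (fun u => c (i.succPNat :: u)))) +
            ∑ l ∈ Finset.range (n - i), x ^ l * (φ (i + 1) * ys φ (n - 1 - l - i)
              (fun u => so l.succPNat u (fun t => c (i.succPNat :: t)))) := by
        intro i hi
        rw [Finset.mem_range] at hi
        rw [hmul, hφ, ih _ (by omega), Finset.sum_range_succ, Finset.mul_sum, add_mul,
          Finset.sum_mul]
        congr 1
        · rw [add_comm]
          congr 1
          · rw [show i + 1 - 1 - i = 0 by omega, h0, mul_one]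
          · refine Finset.sum_congr rfl fun l hl => ?_
            rw [show i + 1 - 1 - l = i - l by omega, mul_assoc]
        · refine Finset.sum_congr rfl fun l hl => ?_
          rw [hxl, show n - i - 1 - l = n - 1 - l - i by omega]
      rw [Finset.sum_congr rfl s1, Finset.sum_add_distrib, Finset.sum_add_distrib]
      have s2 : ∀ l ∈ Finset.range (n + 1), x ^ l *
          ys φ (n + 1 - 1 - l) (fun u => so l.succPNat u c) =
          x ^ l * ys φ (n - l) (fun u => c (l.succPNat :: u)) +
            x ^ l * ys φ (n - l) (fun u => so' l.succPNat u c) := by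
        intro l hl
        have e : (fun u => so l.succPNat u c) =
            fun u => (fun u => c (l.succPNat :: u)) u + (fun u => so' l.succPNat u c) u := by
          funext u; exact so_eq_add _ _ _
        rw [e, ys_add, show n + 1 - 1 - l = n - l by omega, mul_add]
      rw [Finset.sum_congr rfl s2, Finset.sum_add_distrib, add_assoc]
      congr 1
      -- the remaining terms
      have s3 : ∑ l ∈ Finset.range (n + 1), x ^ l * ys φ (n - l) (fun u => so' l.succPNat u c) =
          ∑ l ∈ Finset.range n, (∑ i ∈ Finset.range (n - l), x ^ l * (φ (i + 1) *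
              ys φ (n - 1 - l - i) (fun u => c ((l + i + 1).succPNat :: u))) +
            ∑ i ∈ Finset.range (n - l), x ^ l * (φ (i + 1) *
              ys φ (n - 1 - l - i) (fun u => so l.succPNat u (fun t => c (i.succPNat :: t))))) := by
        rw [Finset.sum_range_succ]
        have e0 : ys φ (n - n) (fun u => so' n.succPNat u c) = 0 := by
          rw [Nat.sub_self, ys_zero]
          simp [so']
        rw [e0, mul_zero, add_zero]
        refine Finset.sum_congr rfl fun l hl => ?_
        rw [Finset.mem_range] at hl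
        obtain ⟨m, hm⟩ : ∃ m, n - l = m + 1 := ⟨n - l - 1, by omega⟩
        rw [← Finset.sum_add_distrib, hm, ys_succ, Finset.mul_sum]
        refine Finset.sum_congr rfl fun i hi => ?_
        have e1 : (fun u => so' l.succPNat (i.succPNat :: u) c) =
            fun u => (fun u => c ((l + i + 1).succPNat :: u)) u +
              (fun u => so l.succPNat u (fun t => c (i.succPNat :: t))) u := by
          funext u
          have e2 : l.succPNat + i.succPNat = (l + i + 1).succPNat := by
            apply PNat.eq
            simp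
            omega
          simp only [so', e2]
        rw [e1, ys_add, mul_add, mul_add, show m - i = n - 1 - l - i by omega]
      rw [s3, Finset.sum_add_distrib]
      congr 1
      · rw [sum_triangle_diag n (fun l i => x ^ l * (φ (i - l) *
              ys φ (n - i) (fun u => c (i.succPNat :: u))))]
        refine Finset.sum_congr rfl fun l hl => Finset.sum_congr rfl fun i hi => ?_
        rw [Finset.mem_range] at hl hi
        rw [show l + i + 1 - l = i + 1 by omega, show n - (l + i + 1) = n - 1 - l - i by omega]
      · rw [Finset.sum_range_succ, Nat.sub_self, Finset.range_zero, Finset.sum_empty, add_zero]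
        exact sum_triangle n (fun l i => x ^ l * (φ (i + 1) * ys φ (n - 1 - l - i)
              (fun u => so l.succPNat u (fun t => c (i.succPNat :: t)))))

/-- `ys` of `st`. -/
lemma ys_st (φ : ℕ → S) (e : S) (m : ℕ) : ∀ (g : ℕ → k) (c : List ℕ+ → k),
    (∀ j ≤ m, ys φ j c * e = 0) → ys φ m (st g c) * e = 0 := by
  induction m with
  | zero =>
    intro g c h
    have h0 := h 0 le_rfl
    rw [ys_zero] at h0 ⊢
    rw [show st g c [] = g 0 * c [] from rfl, mul_smul, smul_mul_assoc, h0, smul_zero]
  | succ m ih =>
    intro g c h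
    have key : ys φ (m + 1) (st g c) = g 0 • ys φ (m + 1) c +
        φ 1 * ys φ m (st (fun i => g (i + 1)) c) := by
      rw [ys_succ, ys_succ, Finset.smul_sum, Finset.sum_range_succ' _ m,
        Finset.sum_range_succ' _ m]
      have e1 : ∀ i : ℕ, (fun u => st g c ((i + 1).succPNat :: u)) =
          fun u => g 0 * (fun u => c ((i + 1).succPNat :: u)) u := by
        intro i; funext u
        have hne : ¬ (i + 1).succPNat = 1 := by
          intro e
          have := congrArg (fun x : ℕ+ => (x : ℕ)) e
          simp at this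
        simp [st, hne]
      have e2 : (fun u => st g c (Nat.succPNat 0 :: u)) =
          fun u => (fun u => g 0 * (fun u => c (Nat.succPNat 0 :: u)) u) u +
            st (fun i => g (i + 1)) c u := by
        funext u
        have h1 : Nat.succPNat 0 = 1 := rfl
        simp [st, h1]
      rw [e2, ys_add, ys_smul, mul_add]
      rw [show m - 0 = m by omega, mul_smul_comm, add_assoc]
      congr 1
      · refine Finset.sum_congr rfl fun i hi => ?_
        rw [e1, ys_smul, mul_smul_comm]
    rw [key, add_mul, smul_mul_assoc, h (m + 1) le_rfl, smul_zero, zero_add, mul_assoc,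
      ih _ _ (fun j hj => h j (by omega)), mul_zero]

/-- The gauge argument, infinitesimal form. -/
lemma ys_gauge (δ : S →+ S) (hk : ∀ r : k, δ (r • (1 : S)) = 0)
    (hmul : ∀ x y, δ (x * y) = δ x * y + x * δ y) (x : S) (hx : ∀ y, x * y = y * x)
    (φ : ℕ → S) (h0 : φ 0 = 1)
    (hφ : ∀ i, δ (φ i) = ∑ l ∈ Finset.range i, x ^ l * φ (i - 1 - l))
    (e : S) (he : δ e = 0) {c : List ℕ+ → k} {z : ℕ+ → k} {g : ℕ → k}
    (hc : ∀ (m : ℕ+) (u : List ℕ+), so m u c = z m * c u - (if m = 1 then st g c u else 0))
    (n : ℕ) (hlow : ∀ m < n, ys φ m c * e = 0) : δ (ys φ n c * e) = 0 := by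
  rw [hmul, he, mul_zero, add_zero, ys_deriv δ hk hmul x hx φ h0 hφ, Finset.sum_mul]
  refine Finset.sum_eq_zero fun l hl => ?_
  rw [Finset.mem_range] at hl
  rw [mul_assoc]
  have e1 : (fun u => so l.succPNat u c) = fun u => (fun u => z l.succPNat * c u) u -
      (fun u => (if l.succPNat = 1 then (1 : k) else 0) * st g c u) u := by
    funext u
    rw [hc]
    split_ifs <;> simp
  rw [e1, ys_sub, ys_smul, ys_smul, sub_mul, smul_mul_assoc, smul_mul_assoc,
    hlow _ (by omega), ys_st φ e _ g c (fun j hj => hlow j (by omega))]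
  simp

end deriv

end Pool.Agent.MP_a57f33_nt.Tri
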